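import Pool.Agent.Q130.TC.Stm

/-!
# Project TC (helper130): the bounded function of a polygon, statement
-/

set_option autoImplicit false

namespace Pool.Agent.Q130.TC

open MeasureTheory Set Metric Filter Topology
open scoped ComplexConjugate
open Pool.Agent.H352R3.SA (Den pot LK Gam)

/-- PGF: charges near a polygon with bounded density, bounded potential and large total charge -/
def S_PGF : Prop :=
  ∀ C₁ : ℝ, 0 < C₁ → ∃ C₂ : ℝ, 1 ≤ C₂ ∧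
    ∀ (z : ℕ → ℂ) (n : ℕ) (d : ℝ), 0 < d → d ≤ ‖z n - z 0‖ → plen z n ≤ C₁ * d →
    ∀ ρ : ℝ, 0 < ρ → ∃ (A : ℂ → ℝ) (q : ℂ → ℂ), Den A ∧ Continuous q ∧ HasCompactSupport q ∧
      (∀ w, A w ≠ 0 → NearPol z n ρ w) ∧ ∫ w, A w ≤ C₂ * d ∧ (∀ w, ‖q w‖ ≤ C₂ * A w) ∧
      (∀ w, ‖pot q w‖ ≤ C₂) ∧ d ≤ C₂ * ‖∫ w, q w‖

end Pool.Agent.Q130.TC
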