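import Pool.Agent.Q130.TC.Gam
import Pool.Agent.Q130.TC.Stm3

/-!
# Project TC (helper130): cut-offs, almost maximizers with all properties, polygons
-/

set_option autoImplicit false

namespace Pool.Agent.Q130.TC

open MeasureTheory Set Metric Filter Topology
open scoped ComplexConjugate
open Pool.Agent.H352R3.SA (Den pot LK Gam cop)

theorem chi_cont (y : ℂ) (r : ℝ) : Continuous (chi y r) := by
  unfold chi
  fun_prop

theorem chi_nonneg (y : ℂ) (r : ℝ) (z : ℂ) : 0 ≤ chi y r z := le_max_left _ _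

theorem chi_le_one (y : ℂ) (r : ℝ) (z : ℂ) : chi y r z ≤ 1 :=
  max_le zero_le_one (min_le_left _ _)

theorem chi_one {y : ℂ} {r : ℝ} (hr : 0 < r) {z : ℂ} (h : ‖z - y‖ ≤ r) : chi y r z = 1 := by
  unfold chi
  have h1 : ‖z - y‖ / r ≤ 1 := (div_le_one hr).2 h
  rw [min_eq_left (by linarith), max_eq_right zero_le_one]

theorem chi_zero {y : ℂ} {r : ℝ} (hr : 0 < r) {z : ℂ} (h : 2 * r ≤ ‖z - y‖) : chi y r z = 0 := by
  unfold chi
  have h1 : 2 ≤ ‖z - y‖ / r := (le_div_iff₀ hr).2 h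
  rw [max_eq_left]
  exact (min_le_right _ _).trans (by linarith)

theorem WT.mono_C {h : ℂ → ℝ} {C C' δ δ' : ℝ} (H : WT h C δ) (hC : C ≤ C') (hδ : δ ≤ δ') :
    WT h C' δ' := by
  intro S _ μ _ φ k hφ hk t ht
  refine (H S μ φ k hφ hk t ht).trans ?_
  have h1 : 0 ≤ ∫ s, ‖k s‖ ∂μ := integral_nonneg fun _ => norm_nonneg _
  have h2 : C * (∫ s, ‖k s‖ ∂μ) / t ≤ C' * (∫ s, ‖k s‖ ∂μ) / t := by gcongr
  linarith

theorem WT.mono {h h' : ℂ → ℝ} {C δ : ℝ} (H : WT h C δ) (h0 : ∀ z, 0 ≤ h' z)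
    (hle : ∀ z, h' z ≤ h z) (hi : Integrable h) : WT h' C δ := by
  intro S _ μ _ φ k hφ hk t ht
  refine le_trans ?_ (H S μ φ k hφ hk t ht)
  exact integral_mono_of_nonneg (Eventually.of_forall h0) hi.integrableOn (Eventually.of_forall hle)

theorem nm_main (h1 : S_WTM) (h2 : S_RAD) : S_NM := by
  intro κ hκ hκ1
  obtain ⟨C, hC, h3⟩ := h1 κ hκ hκ1
  refine ⟨max C (4 / κ), lt_max_of_lt_left hC, fun ω hω δ hδ => ?_⟩
  obtain ⟨τ₀, hτ₀, h4⟩ := h3 ω hω δ hδ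
  set τ : ℝ := min τ₀ (min (δ * κ) δ) with hτ
  have hτp : 0 < τ := lt_min hτ₀ (lt_min (by positivity) hδ)
  obtain ⟨h, hh, hhω, hmax⟩ := max_main κ τ ω hκ hτp hω
  have hPN := mxn κ τ ω h hκ hω hh hhω hmax
  have hτδ : τ ≤ δ := (min_le_right _ _).trans (min_le_right _ _)
  have hτκ : τ ≤ δ * κ := (min_le_right _ _).trans (min_le_left _ _)
  refine ⟨h, hh, hhω, fun g hg hgω => (hmax g hg hgω).trans (by linarith),
    (h4 τ h hτp.le (min_le_left _ _) hh hhω hPN).mono_C (le_max_left _ _) le_rfl, fun x r hr => ?_⟩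
  have hd : Den (fun z => chi x r z * h z) := den_mul hh (chi_cont x r) (chi_nonneg x r)
  have e1 : ∫ z in ball x r, h z ≤ ∫ z, chi x r z * h z := by
    rw [← integral_indicator measurableSet_ball]
    refine integral_mono ((den_integrable hh).indicator measurableSet_ball) (den_integrable hd)
      fun z => ?_
    by_cases hz : z ∈ ball x r
    · rw [indicator_of_mem hz]
      show h z ≤ chi x r z * h z
      rw [chi_one hr (mem_ball_iff_norm.1 hz).le, one_mul]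
    · rw [indicator_of_notMem hz]
      exact hd.nonneg z
  have e2 := hPN (chi x r) (chi_cont x r) fun z => ⟨chi_nonneg x r z, chi_le_one x r z⟩
  have e3 := h2 _ hd x (2 * r) (by positivity) fun z hz => by
    show chi x r z * h z = 0
    rw [chi_zero hr hz.le, zero_mul]
  have e4 : κ * ∫ z in ball x r, h z ≤ 4 * r + δ * κ := by
    have := mul_le_mul_of_nonneg_left e1 hκ.le
    linarith
  have e5 : ∫ z in ball x r, h z ≤ 4 / κ * r + δ := by
    have e6 : 4 / κ * r + δ = (4 * r + δ * κ) / κ := by field_simp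
    rw [e6, le_div_iff₀ hκ]
    linarith
  have e6 : 4 / κ * r ≤ max C (4 / κ) * r := mul_le_mul_of_nonneg_right (le_max_right _ _) hr.le
  linarith

theorem pg (h1 : S_PGF) (h2 : S_VAR) : S_PG := by
  intro C₁ hC₁
  obtain ⟨C₂, hC₂, h3⟩ := h1 C₁ hC₁
  have hC0 : 0 < C₂ := by linarith
  set τ : ℝ := 1 / (2 * C₂ ^ 4) with hτ
  have hτ0 : 0 < τ := by positivity
  refine ⟨min 1 (1 / (4 * C₂ ^ 6)), 1 / (4 * C₂ ^ 5), by positivity, min_le_left _ _, by positivity,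
    fun z n d hd hdz hl ρ hρ => ?_⟩
  obtain ⟨A, q, hA, hq, hqs, hN, hAi, hqA, hpq, hdq⟩ := h3 z n d hd hdz hl ρ hρ
  refine ⟨A, hA, hN, ?_⟩
  -- the unimodular factor
  obtain ⟨θ, hθ, hθq⟩ : ∃ θ : ℂ, ‖θ‖ = 1 ∧ θ * (∫ w, q w) = (‖∫ w, q w‖ : ℂ) := by
    by_cases h0 : ∫ w, q w = 0
    · exact ⟨1, by simp, by rw [h0]; simp⟩
    · have hn : (‖∫ w, q w‖ : ℂ) ≠ 0 := by
        exact_mod_cast (norm_pos_iff.2 h0).ne'
      refine ⟨conj (∫ w, q w) / ‖∫ w, q w‖, ?_, ?_⟩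
      · rw [norm_div, RCLike.norm_conj, Complex.norm_real, norm_norm]
        exact div_self (norm_pos_iff.2 h0).ne'
      · rw [div_mul_eq_mul_div, mul_comm (conj _), Complex.mul_conj, Complex.normSq_eq_norm_sq]
        push_cast
        field_simp
  set Q : ℂ → ℂ := fun w => ((τ : ℂ) * θ) * q w with hQ
  have hc1 : ‖((τ : ℂ) * θ)‖ = τ := by
    rw [norm_mul, hθ, mul_one, Complex.norm_real, Real.norm_eq_abs, abs_of_pos hτ0]
  have hpot : ∀ w, pot Q w = ((τ : ℂ) * θ) * pot q w := by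
    intro w
    unfold pot
    rw [← integral_const_mul]
    refine integral_congr_ae (Eventually.of_forall fun x => ?_)
    show ((τ : ℂ) * θ) * q x * (w - x)⁻¹ = ((τ : ℂ) * θ) * (q x * (w - x)⁻¹)
    ring
  have hv := h2 A hA Q (continuous_const.mul hq) (hqs.mul_left) (fun w => τ ^ 2 * C₂ ^ 2 * A w)
    (continuous_const.mul hA.cont) hA.supp.mul_left (fun w => by
      have e1 : ‖Q w‖ = τ * ‖q w‖ := by
        show ‖((τ : ℂ) * θ) * q w‖ = _
        rw [norm_mul, hc1]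
      rw [e1, mul_pow]
      have e2 : ‖q w‖ ^ 2 ≤ (C₂ * A w) ^ 2 := pow_le_pow_left₀ (norm_nonneg _) (hqA w) 2
      have e3 : 0 ≤ τ ^ 2 := by positivity
      nlinarith [mul_le_mul_of_nonneg_left e2 e3]) (fun w => by
      have := hA.nonneg w
      positivity)
  have hAn : 0 ≤ ∫ w, A w := integral_nonneg hA.nonneg
  have e1 : (∫ w, Q w).re = τ * ‖∫ w, q w‖ := by
    have : ∫ w, Q w = ((τ : ℂ) * θ) * ∫ w, q w := by
      rw [← integral_const_mul]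
    rw [this, mul_assoc, hθq]
    have : (τ : ℂ) * (‖∫ w, q w‖ : ℂ) = ((τ * ‖∫ w, q w‖ : ℝ) : ℂ) := by push_cast; ring
    rw [this, Complex.ofReal_re]
  have e2 : ∫ w, τ ^ 2 * C₂ ^ 2 * A w = τ ^ 2 * C₂ ^ 2 * ∫ w, A w := integral_const_mul _ _
  have e3 : ∫ w, ‖pot Q w‖ ^ 2 * A w ≤ τ ^ 2 * C₂ ^ 2 * ∫ w, A w := by
    rw [← integral_const_mul]
    refine integral_mono_of_nonneg (Eventually.of_forall fun w => mul_nonneg (by positivity)
      (hA.nonneg w)) ((den_integrable hA).const_mul _) (Eventually.of_forall fun w => ?_)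
    show ‖pot Q w‖ ^ 2 * A w ≤ τ ^ 2 * C₂ ^ 2 * A w
    refine mul_le_mul_of_nonneg_right ?_ (hA.nonneg w)
    rw [hpot, norm_mul, hc1, mul_pow]
    exact mul_le_mul_of_nonneg_left (pow_le_pow_left₀ (norm_nonneg _) (hpq w) 2) (by positivity)
  rw [e1, e2] at hv
  have e4 : min 1 (1 / (4 * C₂ ^ 6)) * ∫ w, A w ≤ 1 / (4 * C₂ ^ 6) * (C₂ * d) :=
    mul_le_mul (min_le_right _ _) hAi hAn (by positivity)
  have e5 : d / C₂ ≤ ‖∫ w, q w‖ := by
    rw [div_le_iff₀ hC0]; linarith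
  have e6 : 2 * (τ * (d / C₂)) - 2 * (τ ^ 2 * C₂ ^ 2 * (C₂ * d)) ≤ Gam A := by
    have f1 : τ * (d / C₂) ≤ τ * ‖∫ w, q w‖ := mul_le_mul_of_nonneg_left e5 hτ0.le
    have f2 : τ ^ 2 * C₂ ^ 2 * (∫ w, A w) ≤ τ ^ 2 * C₂ ^ 2 * (C₂ * d) :=
      mul_le_mul_of_nonneg_left hAi (by positivity)
    linarith
  have e7 : 2 * (τ * (d / C₂)) - 2 * (τ ^ 2 * C₂ ^ 2 * (C₂ * d)) = d / (2 * C₂ ^ 5) := by
    rw [hτ]
    field_simp
    ring
  have e8 : 1 / (4 * C₂ ^ 6) * (C₂ * d) = d / (4 * C₂ ^ 5) := by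
    field_simp
  have e9 : d / (2 * C₂ ^ 5) = d / (4 * C₂ ^ 5) + 1 / (4 * C₂ ^ 5) * d := by
    field_simp
    ring
  linarith

theorem pg2 (h1 : S_NM) (h2 : S_PG) : S_PG2 := by
  intro C₁ hC₁
  obtain ⟨κ, c, hκ, hκ1, hc, h3⟩ := h2 C₁ hC₁
  obtain ⟨C, hC, h4⟩ := h1 κ hκ hκ1
  refine ⟨C, c / 2, hC, by positivity, fun z n d hd hdz hl ρ δ hρ hδ => ?_⟩
  obtain ⟨g, hg, hgN, hgG⟩ := h3 z n d hd hdz hl ρ hρ
  obtain ⟨η, hη, hηg, hmax, hWT, hgr⟩ := h4 g hg (min δ (c * d / 2)) (by positivity)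
  refine ⟨η, hη, fun w hw => hgN w ?_, ?_, hWT.mono_C le_rfl (min_le_left _ _), fun x r hr => ?_⟩
  · have e1 := hη.nonneg w
    have e2 := hηg w
    intro h0
    rw [h0] at e2
    exact hw (le_antisymm e2 e1)
  · have e1 := hmax g hg fun _ => le_rfl
    have e2 := (gam η hη).2.2.2.2.2.2.2.2
    have e3 : min δ (c * d / 2) ≤ c * d / 2 := min_le_right _ _
    have e4 : 0 ≤ ∫ w, η w := integral_nonneg hη.nonneg
    nlinarith [mul_nonneg hκ.le e4]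
  · exact (hgr x r hr).trans (by linarith [min_le_left δ (c * d / 2)])

theorem ml2 (h1 : S_NM) (h2 : S_ML) : S_ML2 := by
  obtain ⟨c, hc, h3⟩ := h2
  obtain ⟨C, hC, h4⟩ := h1 (1 / 2) (by norm_num) (by norm_num)
  refine ⟨C, c / 2, hC, by positivity, fun ε Y hε hY a ha b hb δ hδ => ?_⟩
  obtain ⟨g, hg, hgo, hgm, hgG⟩ := h3 ε Y hε hY a ha b hb
  obtain ⟨η, hη, hηg, hmax, hWT, hgr⟩ := h4 g hg (δ / 2) (by positivity)
  refine ⟨η, hη, fun z => (hηg z).trans (hgo z), ?_, hWT.mono_C le_rfl (by linarith)⟩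
  have e1 := hmax g hg fun _ => le_rfl
  have e2 := (gam η hη).2.2.2.2.2.2.2.2
  have e3 : c * ‖a - b‖ ≤ c * (‖a - b‖ + ε) := by nlinarith
  have e4 : 0 ≤ ‖a - b‖ := norm_nonneg _
  nlinarith

end Pool.Agent.Q130.TC
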