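import Pool.Agent.Q130.TC.Hm

/-!
# Project TC (helper130): the counting inequality
-/

set_option autoImplicit false

namespace Pool.Agent.Q130.TC

open MeasureTheory Set Metric Filter Topology
open scoped ComplexConjugate
open Pool.Agent.H352R3.SA (Den pot LK Gam cop)

theorem qL_cont {h : ℂ → ℝ} (hd : Den h) : Continuous (fun w => (h w : ℂ) * conj (fL h w)) :=
  (Complex.continuous_ofReal.comp hd.cont).mul (Complex.continuous_conj.comp (fL_cont h))

theorem qK_cont {h : ℂ → ℝ} (hd : Den h) : Continuous (fun w => (h w : ℂ) * conj (fK h w)) :=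
  (Complex.continuous_ofReal.comp hd.cont).mul (Complex.continuous_conj.comp (fK_cont h))

theorem q_meas (hCAU : S_CAU) {h : ℂ → ℝ} (hd : Den h) {q : ℂ → ℂ} (hq : ∀ z, ‖q z‖ ≤ hh h z)
    (hqc : Continuous q) {B : Set ℂ} (hB : MeasurableSet B) (t : ℝ) :
    MeasurableSet {z : ℂ | t ≤ ‖∫ w in B, q w * (z - w)⁻¹‖} := by
  have hqi : Integrable q :=
    Integrable.mono' (hh_int hd) hqc.aestronglyMeasurable (Eventually.of_forall hq)
  have e1 := (hCAU.1 ℂ volume id (B.indicator q) measurable_id (hqi.indicator hB)).1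
  have e2 : cau volume id (B.indicator q) = fun z => ∫ w in B, q w * (z - w)⁻¹ := by
    funext z
    unfold cau
    rw [← integral_indicator hB]
    refine integral_congr_ae (Eventually.of_forall fun w => ?_)
    by_cases hw : w ∈ B
    · simp [indicator_of_mem hw]
    · simp [indicator_of_notMem hw]
  rw [e2] at e1
  exact measurableSet_le measurable_const e1.norm

theorem count (hCAU : S_CAU) {CF : ℝ}
    (hFLD : ∀ (h : ℂ → ℝ) (y : ℂ) (s δ : ℝ), Den h → 0 < s → 0 ≤ δ →
      (∀ ρ, s < ρ → HM h (ball y ρ) ≤ δ * ρ) →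
      ∀ ρ, s / 2 ≤ ρ → ρ ≤ 8 * s → ∀ z, ‖z - y‖ ≤ 25 * s →
        ‖fK h z + FK h y ρ y + ∫ w in ball y (50 * s), (h w : ℂ) * conj (fL h w) * (z - w)⁻¹‖
          ≤ CF * δ ∧
        ‖fL h z - 1 + FL h y ρ y + ∫ w in ball y (50 * s), (h w : ℂ) * conj (fK h w) * (z - w)⁻¹‖
          ≤ CF * δ)
    {η h : ℂ → ℝ} {C δ δ₁ δ₂ : ℝ} (hη : Den η) (hC : 0 < C) (hWT : WT η C δ)
    (hgr : ∀ (x : ℂ) (r : ℝ), 0 < r → ∫ w in ball x r, η w ≤ C * r + δ) (hd : Den h)
    (hδ₁ : 0 < δ₁) (hδ₂ : 0 < δ₂) (hδ : 0 ≤ δ) (hCF : CF * δ₁ ≤ δ₂ / 4) (J : Finset ℂ) (s : ℂ → ℝ)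
    (hs : ∀ y ∈ J, 0 < s y)
    (hdis : ∀ y ∈ J, ∀ y' ∈ J, y ≠ y' → Disjoint (ball y (2 * s y)) (ball y' (2 * s y')))
    (hcov : ∀ w, η w ≠ 0 → ∃ y ∈ J, ‖w - y‖ < 8 * s y)
    (hgood : ∀ y ∈ J, ∀ ρ, s y < ρ → HM h (ball y ρ) ≤ δ₁ * ρ)
    (hbad : ∀ y ∈ J, ∃ ρ, s y / 2 ≤ ρ ∧ ρ ≤ s y ∧
      (δ₁ * ρ < HM h (ball y ρ) ∨ δ₂ < ‖FK h y ρ y‖ ∨ δ₂ < ‖FL h y ρ y‖)) :
    ∫ w, η w ≤ (16 * C / δ₁ + 4 * C / δ₂) * HM h univ + 400 * C * δ₁ / δ₂ * ∑ y ∈ J, s y +
      (3 * (J.card : ℝ) + 2) * δ := by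
  classical
  have hηi := den_integrable hη
  choose! ρ₀ hρ1 hρ2 hρ3 using hbad
  set J2 : Finset ℂ := J.filter fun y => δ₁ * ρ₀ y < HM h (ball y (ρ₀ y)) with hJ2
  set J3 : Finset ℂ := J.filter fun y => ¬ δ₁ * ρ₀ y < HM h (ball y (ρ₀ y)) with hJ3
  set NK : ℂ → Set ℂ := fun y =>
    {z | δ₂ / 4 ≤ ‖∫ w in ball y (50 * s y), (h w : ℂ) * conj (fL h w) * (z - w)⁻¹‖} with hNK
  set NL : ℂ → Set ℂ := fun y =>
    {z | δ₂ / 4 ≤ ‖∫ w in ball y (50 * s y), (h w : ℂ) * conj (fK h w) * (z - w)⁻¹‖} with hNL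
  set GK : Set ℂ := {z | δ₂ / 2 ≤ ‖∫ w in univ, (h w : ℂ) * conj (fL h w) * (z - w)⁻¹‖} with hGK
  set GM : Set ℂ := {z | δ₂ / 2 ≤ ‖∫ w in univ, (h w : ℂ) * conj (fK h w) * (z - w)⁻¹‖} with hGM
  have mNK : ∀ y, MeasurableSet (NK y) := fun y =>
    q_meas hCAU hd (le_hh_L hd) (qL_cont hd) measurableSet_ball _
  have mNL : ∀ y, MeasurableSet (NL y) := fun y =>
    q_meas hCAU hd (le_hh_K hd) (qK_cont hd) measurableSet_ball _
  have mGK : MeasurableSet GK := q_meas hCAU hd (le_hh_L hd) (qL_cont hd) MeasurableSet.univ _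
  have mGM : MeasurableSet GM := q_meas hCAU hd (le_hh_K hd) (qK_cont hd) MeasurableSet.univ _
  have hg := gam h hd
  have eK : ∀ z, fK h z = - ∫ w in univ, (h w : ℂ) * conj (fL h w) * (z - w)⁻¹ := by
    intro z
    rw [Measure.restrict_univ]
    exact hg.2.2.2.1 z
  have eL : ∀ z, fL h z - 1 = - ∫ w in univ, (h w : ℂ) * conj (fK h w) * (z - w)⁻¹ := by
    intro z
    rw [Measure.restrict_univ, hg.2.2.1 z]
    unfold pot
    ring
  -- the pointwise inequality
  set F : ℂ → ℝ := fun z => (∑ y ∈ J2, (ball y (8 * s y)).indicator η z) +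
    (∑ y ∈ J3, ((NK y).indicator η z + (NL y).indicator η z)) +
    (GK.indicator η z + GM.indicator η z) with hF
  have hi0 : ∀ (A : Set ℂ) (z : ℂ), 0 ≤ A.indicator η z := fun A z =>
    indicator_nonneg (fun x _ => hη.nonneg x) z
  have hpt : ∀ z, η z ≤ F z := by
    intro z
    by_cases hz : η z = 0
    · rw [hz, hF]
      have e1 : 0 ≤ ∑ y ∈ J2, (ball y (8 * s y)).indicator η z :=
        Finset.sum_nonneg fun y _ => hi0 _ _
      have e2 : 0 ≤ ∑ y ∈ J3, ((NK y).indicator η z + (NL y).indicator η z) :=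
        Finset.sum_nonneg fun y _ => add_nonneg (hi0 _ _) (hi0 _ _)
      have e3 := hi0 GK z
      have e4 := hi0 GM z
      show 0 ≤ _ + _ + (_ + _)
      linarith
    obtain ⟨y, hy, hyz⟩ := hcov z hz
    have s1 : 0 ≤ ∑ y ∈ J2, (ball y (8 * s y)).indicator η z :=
      Finset.sum_nonneg fun y _ => hi0 _ _
    have s2 : 0 ≤ ∑ y ∈ J3, ((NK y).indicator η z + (NL y).indicator η z) :=
      Finset.sum_nonneg fun y _ => add_nonneg (hi0 _ _) (hi0 _ _)
    have s3 := hi0 GK z
    have s4 := hi0 GM z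
    by_cases h2 : δ₁ * ρ₀ y < HM h (ball y (ρ₀ y))
    · have hyJ : y ∈ J2 := Finset.mem_filter.2 ⟨hy, h2⟩
      have e1 : (ball y (8 * s y)).indicator η z ≤ ∑ y ∈ J2, (ball y (8 * s y)).indicator η z :=
        Finset.single_le_sum (f := fun y => (ball y (8 * s y)).indicator η z)
          (fun y _ => hi0 _ _) hyJ
      rw [indicator_of_mem (mem_ball_iff_norm.2 hyz)] at e1
      show η z ≤ _ + _ + (_ + _)
      linarith
    · have hyJ : y ∈ J3 := Finset.mem_filter.2 ⟨hy, h2⟩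
      have e1 : (NK y).indicator η z + (NL y).indicator η z ≤
          ∑ y ∈ J3, ((NK y).indicator η z + (NL y).indicator η z) :=
        Finset.single_le_sum (f := fun y => (NK y).indicator η z + (NL y).indicator η z)
          (fun y _ => add_nonneg (hi0 _ _) (hi0 _ _)) hyJ
      have t1 := hi0 (NK y) z
      have t2 := hi0 (NL y) z
      by_cases hK : z ∈ NK y
      · rw [indicator_of_mem hK] at e1
        show η z ≤ _ + _ + (_ + _)
        linarith
      by_cases hL : z ∈ NL y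
      · rw [indicator_of_mem hL] at e1
        show η z ≤ _ + _ + (_ + _)
        linarith
      have hK' : ‖∫ w in ball y (50 * s y), (h w : ℂ) * conj (fL h w) * (z - w)⁻¹‖ < δ₂ / 4 :=
        not_le.1 hK
      have hL' : ‖∫ w in ball y (50 * s y), (h w : ℂ) * conj (fK h w) * (z - w)⁻¹‖ < δ₂ / 4 :=
        not_le.1 hL
      have hsy := hs y hy
      obtain ⟨f1, f2⟩ := hFLD h y (s y) δ₁ hd hsy hδ₁.le (hgood y hy) (ρ₀ y) (hρ1 y hy)
        (by linarith [hρ2 y hy]) z (by linarith)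
      rcases (hρ3 y hy).resolve_left h2 with h3 | h3
      · have g1 : z ∈ GK := by
          show δ₂ / 2 ≤ _
          have g2 : ‖FK h y (ρ₀ y) y‖ ≤ ‖fK h z + FK h y (ρ₀ y) y +
              ∫ w in ball y (50 * s y), (h w : ℂ) * conj (fL h w) * (z - w)⁻¹‖ + ‖fK h z‖ +
              ‖∫ w in ball y (50 * s y), (h w : ℂ) * conj (fL h w) * (z - w)⁻¹‖ := by
            generalize (∫ w in ball y (50 * s y), (h w : ℂ) * conj (fL h w) * (z - w)⁻¹) = I
            generalize FK h y (ρ₀ y) y = X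
            generalize fK h z = Z
            have g3 : X = (Z + X + I) - Z - I := by ring
            calc ‖X‖ = ‖(Z + X + I) - Z - I‖ := congrArg _ g3
              _ ≤ ‖Z + X + I‖ + ‖Z‖ + ‖I‖ :=
                (norm_sub_le _ _).trans (add_le_add (norm_sub_le _ _) le_rfl)
          have g4 : ‖fK h z‖ = ‖∫ w in univ, (h w : ℂ) * conj (fL h w) * (z - w)⁻¹‖ := by
            rw [eK z, norm_neg]
          rw [← g4]
          linarith
        have g5 : GK.indicator η z = η z := indicator_of_mem g1 _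
        show η z ≤ _ + _ + (_ + _)
        linarith
      · have g1 : z ∈ GM := by
          show δ₂ / 2 ≤ _
          have g2 : ‖FL h y (ρ₀ y) y‖ ≤ ‖fL h z - 1 + FL h y (ρ₀ y) y +
              ∫ w in ball y (50 * s y), (h w : ℂ) * conj (fK h w) * (z - w)⁻¹‖ + ‖fL h z - 1‖ +
              ‖∫ w in ball y (50 * s y), (h w : ℂ) * conj (fK h w) * (z - w)⁻¹‖ := by
            generalize (∫ w in ball y (50 * s y), (h w : ℂ) * conj (fK h w) * (z - w)⁻¹) = I
            generalize FL h y (ρ₀ y) y = X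
            generalize fL h z - 1 = Z
            have g3 : X = (Z + X + I) - Z - I := by ring
            calc ‖X‖ = ‖(Z + X + I) - Z - I‖ := congrArg _ g3
              _ ≤ ‖Z + X + I‖ + ‖Z‖ + ‖I‖ :=
                (norm_sub_le _ _).trans (add_le_add (norm_sub_le _ _) le_rfl)
          have g4 : ‖fL h z - 1‖ = ‖∫ w in univ, (h w : ℂ) * conj (fK h w) * (z - w)⁻¹‖ := by
            rw [eL z, norm_neg]
          rw [← g4]
          linarith
        have g5 : GM.indicator η z = η z := indicator_of_mem g1 _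
        show η z ≤ _ + _ + (_ + _)
        linarith
  -- integrate
  have iA : ∀ {A : Set ℂ}, MeasurableSet A → Integrable (A.indicator η) := fun hA =>
    hηi.indicator hA
  have i2 : Integrable fun z => ∑ y ∈ J2, (ball y (8 * s y)).indicator η z :=
    integrable_finset_sum _ fun y _ => iA measurableSet_ball
  have i3 : Integrable fun z => ∑ y ∈ J3, ((NK y).indicator η z + (NL y).indicator η z) :=
    integrable_finset_sum _ fun y _ => (iA (mNK y)).add (iA (mNL y))
  have i4 : Integrable fun z => GK.indicator η z + GM.indicator η z := (iA mGK).add (iA mGM)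
  have hint : ∫ z, η z ≤ (∑ y ∈ J2, ∫ z in ball y (8 * s y), η z) +
      (∑ y ∈ J3, ((∫ z in NK y, η z) + ∫ z in NL y, η z)) +
      ((∫ z in GK, η z) + ∫ z in GM, η z) := by
    have e1 : ∫ z, η z ≤ ∫ z, F z := integral_mono hηi ((i2.add i3).add i4) hpt
    refine e1.trans (le_of_eq ?_)
    have e2 : ∫ z, F z = ((∫ z, ∑ y ∈ J2, (ball y (8 * s y)).indicator η z) +
        ∫ z, ∑ y ∈ J3, ((NK y).indicator η z + (NL y).indicator η z)) +
        ∫ z, (GK.indicator η z + GM.indicator η z) := by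
      have a1 := integral_add (μ := volume) (i2.add i3) i4
      have a2 := integral_add (μ := volume) i2 i3
      rw [← a2]
      exact a1
    have a3 : ∫ z, ∑ y ∈ J2, (ball y (8 * s y)).indicator η z =
        ∑ y ∈ J2, ∫ z in ball y (8 * s y), η z := by
      rw [integral_finset_sum _ fun y _ => iA measurableSet_ball]
      exact Finset.sum_congr rfl fun y _ => integral_indicator measurableSet_ball
    have a4 : ∫ z, ∑ y ∈ J3, ((NK y).indicator η z + (NL y).indicator η z) =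
        ∑ y ∈ J3, ((∫ z in NK y, η z) + ∫ z in NL y, η z) := by
      have a5 : ∀ y ∈ J3, Integrable fun z => (NK y).indicator η z + (NL y).indicator η z :=
        fun y _ => (iA (mNK y)).add (iA (mNL y))
      rw [integral_finset_sum _ a5]
      refine Finset.sum_congr rfl fun y _ => ?_
      have a6 := integral_add (μ := volume) (iA (mNK y)) (iA (mNL y))
      rw [integral_indicator (mNK y), integral_indicator (mNL y)] at a6
      exact a6
    have a7 : ∫ z, (GK.indicator η z + GM.indicator η z) = (∫ z in GK, η z) + ∫ z in GM, η z := by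
      have a6 := integral_add (μ := volume) (iA mGK) (iA mGM)
      rw [integral_indicator mGK, integral_indicator mGM] at a6
      exact a6
    rw [e2, a3, a4, a7]
  -- the bounds
  have b2 : ∑ y ∈ J2, ∫ z in ball y (8 * s y), η z ≤
      16 * C / δ₁ * HM h univ + (J2.card : ℝ) * δ := by
    have e1 : ∀ y ∈ J2, ∫ z in ball y (8 * s y), η z ≤
        16 * C / δ₁ * HM h (ball y (2 * s y)) + δ := by
      intro y hy
      obtain ⟨hyJ, hy2⟩ := Finset.mem_filter.1 hy
      have e2 := hgr y (8 * s y) (by linarith [hs y hyJ])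
      have e3 : HM h (ball y (ρ₀ y)) ≤ HM h (ball y (2 * s y)) :=
        HM_mono hd (ball_subset_ball (by linarith [hρ2 y hyJ, hs y hyJ]))
      have e4 : δ₁ * (s y / 2) ≤ HM h (ball y (2 * s y)) := by
        have := mul_le_mul_of_nonneg_left (hρ1 y hyJ) hδ₁.le
        linarith
      have e5 : C * (8 * s y) ≤ 16 * C / δ₁ * HM h (ball y (2 * s y)) := by
        have e6 : 16 * C / δ₁ * (δ₁ * (s y / 2)) = C * (8 * s y) := by
          field_simp
          ring
        rw [← e6]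
        exact mul_le_mul_of_nonneg_left e4 (by positivity)
      linarith
    refine (Finset.sum_le_sum e1).trans ?_
    rw [Finset.sum_add_distrib, Finset.sum_const, nsmul_eq_mul, ← Finset.mul_sum]
    have e7 : ∑ y ∈ J2, HM h (ball y (2 * s y)) ≤ HM h univ :=
      HM_sum hd J2 (fun y => 2 * s y) fun y hy y' hy' hne =>
        hdis y (Finset.mem_filter.1 hy).1 y' (Finset.mem_filter.1 hy').1 hne
    have e8 := mul_le_mul_of_nonneg_left e7 (show 0 ≤ 16 * C / δ₁ by positivity)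
    linarith
  have b3 : ∑ y ∈ J3, ((∫ z in NK y, η z) + ∫ z in NL y, η z) ≤
      400 * C * δ₁ / δ₂ * ∑ y ∈ J3, s y + (J3.card : ℝ) * (2 * δ) := by
    have e1 : ∀ y ∈ J3, ((∫ z in NK y, η z) + ∫ z in NL y, η z) ≤
        400 * C * δ₁ / δ₂ * s y + 2 * δ := by
      intro y hy
      obtain ⟨hyJ, -⟩ := Finset.mem_filter.1 hy
      have hsy := hs y hyJ
      have e2 := wt_set hC.le hWT hd (le_hh_L hd) (qL_cont hd) (ball y (50 * s y))
        measurableSet_ball (t := δ₂ / 4) (by positivity)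
      have e3 := wt_set hC.le hWT hd (le_hh_K hd) (qK_cont hd) (ball y (50 * s y))
        measurableSet_ball (t := δ₂ / 4) (by positivity)
      have e4 : C * HM h (ball y (50 * s y)) / (δ₂ / 4) ≤ C * (δ₁ * (50 * s y)) / (δ₂ / 4) := by
        have := hgood y hyJ (50 * s y) (by linarith)
        gcongr
      have e5 : C * (δ₁ * (50 * s y)) / (δ₂ / 4) = 200 * C * δ₁ / δ₂ * s y := by
        field_simp
        ring
      have e6 : 400 * C * δ₁ / δ₂ * s y = 200 * C * δ₁ / δ₂ * s y + 200 * C * δ₁ / δ₂ * s y := by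
        ring
      rw [e6]
      rw [e5] at e4
      linarith
    refine (Finset.sum_le_sum e1).trans ?_
    rw [Finset.sum_add_distrib, Finset.sum_const, nsmul_eq_mul, ← Finset.mul_sum]
  have b3' : ∑ y ∈ J3, s y ≤ ∑ y ∈ J, s y :=
    Finset.sum_le_sum_of_subset_of_nonneg (Finset.filter_subset _ _) fun y hy _ => (hs y hy).le
  have b4 : ∫ z in GK, η z ≤ 2 * C / δ₂ * HM h univ + δ := by
    have e2 := wt_set hC.le hWT hd (le_hh_L hd) (qL_cont hd) univ
        MeasurableSet.univ (t := δ₂ / 2) (by positivity)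
    have e3 : C * HM h univ / (δ₂ / 2) = 2 * C / δ₂ * HM h univ := by
      field_simp
    rw [e3] at e2
    exact e2
  have b5 : ∫ z in GM, η z ≤ 2 * C / δ₂ * HM h univ + δ := by
    have e2 := wt_set hC.le hWT hd (le_hh_K hd) (qK_cont hd) univ
        MeasurableSet.univ (t := δ₂ / 2) (by positivity)
    have e3 : C * HM h univ / (δ₂ / 2) = 2 * C / δ₂ * HM h univ := by
      field_simp
    rw [e3] at e2
    exact e2
  have c1 : (J2.card : ℝ) ≤ J.card := by exact_mod_cast Finset.card_filter_le _ _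
  have c2 : (J3.card : ℝ) ≤ J.card := by exact_mod_cast Finset.card_filter_le _ _
  have c3 : (J2.card : ℝ) * δ ≤ J.card * δ := mul_le_mul_of_nonneg_right c1 hδ
  have c4 : (J3.card : ℝ) * (2 * δ) ≤ J.card * (2 * δ) :=
    mul_le_mul_of_nonneg_right c2 (by linarith)
  have c5 : 400 * C * δ₁ / δ₂ * ∑ y ∈ J3, s y ≤ 400 * C * δ₁ / δ₂ * ∑ y ∈ J, s y :=
    mul_le_mul_of_nonneg_left b3' (by positivity)
  have c6 : (16 * C / δ₁ + 4 * C / δ₂) * HM h univ =
      16 * C / δ₁ * HM h univ + (2 * C / δ₂ * HM h univ + 2 * C / δ₂ * HM h univ) := by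
    ring
  rw [c6]
  have c7 : (3 * (J.card : ℝ) + 2) * δ = J.card * δ + J.card * (2 * δ) + (δ + δ) := by ring
  rw [c7]
  linarith

end Pool.Agent.Q130.TC
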