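import Pool.Agent.Q130.TC.Stm
import Pool.Agent.H352R3.SA.Fin
import Pool.Agent.H352R3.SA.Strong

/-!
# Project TC (helper130): basic facts, almost maximizers
-/

set_option autoImplicit false

namespace Pool.Agent.Q130.TC

open MeasureTheory Set Metric Filter Topology
open scoped ComplexConjugate
open Pool.Agent.H352R3.SA (Den pot LK Gam cop)

theorem fL_cont (g : ℂ → ℝ) : Continuous (fL g) := (LK g).1.continuous
theorem fK_cont (g : ℂ → ℝ) : Continuous (fK g) := (LK g).2.continuous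

theorem den_integrable {g : ℂ → ℝ} (hg : Den g) : Integrable g :=
  hg.cont.integrable_of_hasCompactSupport hg.supp

theorem den_mul_int {g : ℂ → ℝ} (hg : Den g) {F : ℂ → ℝ} (hF : Continuous F) :
    Integrable (fun z => g z * F z) :=
  (hg.cont.mul hF).integrable_of_hasCompactSupport hg.supp.mul_right

theorem den_mul_intC {g : ℂ → ℝ} (hg : Den g) {F : ℂ → ℂ} (hF : Continuous F) :
    Integrable (fun z => (g z : ℂ) * F z) :=
  ((Complex.continuous_ofReal.comp hg.cont).mul hF).integrable_of_hasCompactSupport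
    ((hg.supp.comp_left (g := fun x : ℝ => (x : ℂ)) (by simp)).mul_right)

theorem den_sq_int {g : ℂ → ℝ} (hg : Den g) {F : ℂ → ℂ} (hF : Continuous F) :
    Integrable (fun z => g z * ‖F z‖ ^ 2) :=
  den_mul_int hg (F := fun z => ‖F z‖ ^ 2) (hF.norm.pow 2)

theorem gam : S_GAM := by
  intro g hg
  have hs := Pool.Agent.H352R3.SA.LK_sol hg
  have hG0 := Pool.Agent.H352R3.SA.Gam_nonneg hg
  have hGe : Gam g = (∫ z, g z * ‖fL g z‖ ^ 2) + ∫ z, g z * ‖fK g z‖ ^ 2 := by
    rw [Pool.Agent.H352R3.SA.Gam_eq hg]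
    rw [← integral_add (den_sq_int hg (fL_cont g)) (den_sq_int hg (fK_cont g))]
    refine integral_congr_ae (Eventually.of_forall fun z => ?_)
    show g z * (‖(LK g).1 z‖ ^ 2 + ‖(LK g).2 z‖ ^ 2) = g z * ‖fL g z‖ ^ 2 + g z * ‖fK g z‖ ^ 2
    unfold fL fK
    ring
  have hGc : ∫ z, (g z : ℂ) * conj (fL g z) = (Gam g : ℂ) := Pool.Agent.H352R3.SA.Gam_complex hg
  have hm0 : 0 ≤ ∫ z, g z := integral_nonneg hg.nonneg
  refine ⟨fL_cont g, fK_cont g, fun z => ?_, fun z => ?_, fun z => ?_, hGe, hGc, hG0, ?_⟩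
  · have := hs.eL z
    unfold cop at this
    rw [sub_eq_add_neg]
    exact this
  · have := hs.eK z
    unfold cop at this
    rw [zero_add] at this
    exact this
  · exact Pool.Agent.H352R3.SA.norm_K_le hg z
  · -- Gam ≤ mass: 2 Re ∫ g conj L ≤ ∫ g + ∫ g |L|²
    have h1 : 2 * Gam g ≤ (∫ z, g z) + ∫ z, g z * ‖fL g z‖ ^ 2 := by
      have h2 : Gam g = ∫ z, g z * (fL g z).re := by
        have h3 : (Gam g : ℂ).re = (∫ z, (g z : ℂ) * conj (fL g z)).re := by rw [hGc]
        rw [Complex.ofReal_re] at h3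
        rw [h3]
        have hi : Integrable (fun z => (g z : ℂ) * conj (fL g z)) :=
          den_mul_intC hg (Complex.continuous_conj.comp (fL_cont g))
        have h4 := integral_re (𝕜 := ℂ) hi
        have h5 : ∫ z, RCLike.re ((g z : ℂ) * conj (fL g z)) = ∫ z, g z * (fL g z).re := by
          refine integral_congr_ae (Eventually.of_forall fun z => ?_)
          simp
        rw [← h5]
        exact h4.symm
      rw [h2, ← integral_const_mul, ← integral_add (den_integrable hg)
        (den_sq_int hg (fL_cont g))]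
      refine integral_mono ((den_mul_int hg (Complex.continuous_re.comp (fL_cont g))).const_mul 2)
        ((den_integrable hg).add (den_sq_int hg (fL_cont g))) fun z => ?_
      show 2 * (g z * (fL g z).re) ≤ g z + g z * ‖fL g z‖ ^ 2
      have h6 : (fL g z).re ≤ ‖fL g z‖ := Complex.re_le_norm _
      have h7 : 2 * ‖fL g z‖ ≤ 1 + ‖fL g z‖ ^ 2 := by nlinarith [sq_nonneg (‖fL g z‖ - 1)]
      have h8 := hg.nonneg z
      nlinarith
    have h2 : 0 ≤ ∫ z, g z * ‖fK g z‖ ^ 2 :=
      integral_nonneg fun z => mul_nonneg (hg.nonneg z) (by positivity)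
    linarith

theorem max_main : S_MAX := by
  intro κ τ ω hκ hτ hω
  set A : Set ℝ := {x | ∃ g : ℂ → ℝ, Den g ∧ (∀ z, g z ≤ ω z) ∧ x = Gam g - κ * ∫ z, g z} with hA
  have hne : A.Nonempty := ⟨_, ω, hω, fun z => le_rfl, rfl⟩
  have hbd : BddAbove A := by
    refine ⟨∫ z, ω z, ?_⟩
    rintro x ⟨g, hg, hgω, rfl⟩
    have h1 := (gam g hg).2.2.2.2.2.2.2.2
    have h2 : ∫ z, g z ≤ ∫ z, ω z := integral_mono (den_integrable hg) (den_integrable hω) hgω
    have h3 : 0 ≤ ∫ z, g z := integral_nonneg hg.nonneg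
    nlinarith [mul_nonneg hκ.le h3]
  obtain ⟨x, ⟨h, hh, hhω, rfl⟩, hx⟩ := exists_lt_of_lt_csSup hne (show sSup A - τ < sSup A by linarith)
  refine ⟨h, hh, hhω, fun g hg hgω => ?_⟩
  have h1 := le_csSup hbd ⟨g, hg, hgω, rfl⟩
  linarith

theorem den_mul {h χ : ℂ → ℝ} (hh : Den h) (hχ : Continuous χ) (h0 : ∀ z, 0 ≤ χ z) :
    Den (fun z => χ z * h z) where
  cont := hχ.mul hh.cont
  supp := hh.supp.mul_left
  nonneg z := mul_nonneg (h0 z) (hh.nonneg z)

theorem mxn : S_MXN := by
  intro κ τ ω h hκ hω hh hhω hmax χ hχ h01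
  have hd1 : Den (fun z => χ z * h z) := den_mul hh hχ fun z => (h01 z).1
  have hd2 : Den (fun z => (1 - χ z) * h z) :=
    den_mul hh (continuous_const.sub hχ) fun z => by linarith [(h01 z).2]
  have h1 := Pool.Agent.H352R3.SA.Gam_add_le hd2 hd1
  have h2 : (fun z => (1 - χ z) * h z + χ z * h z) = h := by
    funext z; ring
  rw [h2] at h1
  have h3 := hmax _ hd2 (fun z => by
    have := hh.nonneg z
    have h4 := (h01 z).1
    have h5 := hhω z
    nlinarith)
  have h4 : ∫ z, (1 - χ z) * h z = (∫ z, h z) - ∫ z, χ z * h z := by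
    rw [← integral_sub (den_integrable hh) (den_integrable hd1)]
    refine integral_congr_ae (Eventually.of_forall fun z => ?_)
    show (1 - χ z) * h z = h z - χ z * h z
    ring
  rw [h4] at h3
  nlinarith

end Pool.Agent.Q130.TC
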