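import Pool.Agent.Q130.TC.Cnt
import Pool.Agent.Q216.TC.Bmp

/-!
# Project TC (helper130): connected sets carry densities of large mass and capacity
-/

set_option autoImplicit false

namespace Pool.Agent.Q130.TC

open MeasureTheory Set Metric Filter Topology
open scoped ComplexConjugate
open Pool.Agent.H352R3.SA (Den pot LK Gam cop)
open Pool.Agent.Q216.TC (om_den om_mono)

theorem om_near {Y : Finset ℂ} (hY : Y.Nonempty) {ε : ℝ} (hε : 0 < ε) {z : ℂ} (h : om Y ε z ≠ 0) :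
    ∃ y ∈ Y, ‖z - y‖ < 2 * ε := by
  have h1 : infDist z (Y : Set ℂ) < 2 * ε := by
    by_contra h2
    apply h
    unfold om
    have h3 : 2 ≤ infDist z (Y : Set ℂ) / ε := (le_div_iff₀ hε).2 (not_lt.1 h2)
    rw [max_eq_left ((min_le_right _ _).trans (by linarith)), mul_zero]
  obtain ⟨y, hy, hyz⟩ := (infDist_lt_iff (s := (Y : Set ℂ)) (by exact_mod_cast hY)).1 h1
  exact ⟨y, hy, by rwa [← dist_eq_norm]⟩

/-- a bad radius -/
def Bad (h : ℂ → ℝ) (δ₁ δ₂ : ℝ) (y : ℂ) (ρ : ℝ) : Prop :=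
  δ₁ * ρ < HM h (ball y ρ) ∨ δ₂ < ‖FK h y ρ y‖ ∨ δ₂ < ‖FL h y ρ y‖

theorem plen_bound (z : ℕ → ℂ) (n : ℕ) (J : Finset ℂ) (s : ℂ → ℝ) (hs : ∀ y ∈ J, 0 ≤ s y)
    (hz : ∀ i ≤ n, z i ∈ J) (hinj : ∀ i ≤ n, ∀ j ≤ n, z i = z j → i = j)
    (hst : ∀ i < n, ‖z (i + 1) - z i‖ ≤ 3 * (s (z i) + s (z (i + 1)))) :
    plen z n ≤ 6 * ∑ y ∈ J, s y := by
  classical
  have e1 : ∑ i ∈ Finset.range (n + 1), s (z i) ≤ ∑ y ∈ J, s y := by
    have e2 : ∑ i ∈ Finset.range (n + 1), s (z i) = ∑ y ∈ (Finset.range (n + 1)).image z, s y := by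
      rw [Finset.sum_image]
      intro i hi j hj hij
      have hi' := Finset.mem_range.1 (Finset.mem_coe.1 hi)
      have hj' := Finset.mem_range.1 (Finset.mem_coe.1 hj)
      exact hinj i (by omega) j (by omega) hij
    rw [e2]
    refine Finset.sum_le_sum_of_subset_of_nonneg ?_ fun y hy _ => hs y hy
    intro y hy
    obtain ⟨i, hi, rfl⟩ := Finset.mem_image.1 hy
    exact hz i (by have := Finset.mem_range.1 hi; omega)
  have e3 : plen z n ≤ 3 * ((∑ i ∈ Finset.range n, s (z i)) + ∑ i ∈ Finset.range n, s (z (i + 1))) := by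
    unfold plen
    rw [← Finset.sum_add_distrib, Finset.mul_sum]
    exact Finset.sum_le_sum fun i hi => hst i (Finset.mem_range.1 hi)
  have e4 : ∑ i ∈ Finset.range n, s (z i) ≤ ∑ i ∈ Finset.range (n + 1), s (z i) := by
    rw [Finset.sum_range_succ]
    linarith [hs _ (hz n le_rfl)]
  have e5 : ∑ i ∈ Finset.range n, s (z (i + 1)) ≤ ∑ i ∈ Finset.range (n + 1), s (z i) := by
    rw [Finset.sum_range_succ']
    linarith [hs _ (hz 0 (Nat.zero_le n))]
  linarith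

theorem ml (hCAU : S_CAU) (hNM : S_NM) (hRAD : S_RAD) (hIMP : S_IMP) (hLOC : S_LOC)
    (hFLD : S_FLD) (hBMP : S_BMP) (hGEO : S_GEO) (hCMP : S_CMP) (hPG2 : S_PG2) : S_ML := by
  classical
  obtain ⟨CN, hCN, hNM'⟩ := hNM (1 / 2) (by norm_num) (by norm_num)
  obtain ⟨t, ht0, ht1, hIMP'⟩ := hIMP CN hCN
  obtain ⟨CL, hCL, hLOC'⟩ := hLOC
  obtain ⟨CF, hCF, hFLD'⟩ := hFLD
  obtain ⟨cb, hcb, hBMP'⟩ := hBMP
  obtain ⟨Cη, cη, hCη, hcη, hPG⟩ := hPG2 (9600 * CL / t) (by positivity)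
  obtain ⟨δ₂, hδ₂, hδ₂1, hδ₂L⟩ : ∃ δ₂ : ℝ, 0 < δ₂ ∧ δ₂ ≤ 1 ∧ CL * δ₂ ≤ 1 / 20 := by
    refine ⟨min 1 (1 / (20 * CL)), by positivity, min_le_left _ _, ?_⟩
    calc CL * min 1 (1 / (20 * CL)) ≤ CL * (1 / (20 * CL)) :=
          mul_le_mul_of_nonneg_left (min_le_right _ _) hCL.le
      _ = 1 / 20 := by field_simp
  obtain ⟨δ₁, hδ₁, hδ₁1, hδ₁L, hδ₁F, hδ₁b, hδ₁η⟩ : ∃ δ₁ : ℝ, 0 < δ₁ ∧ δ₁ ≤ 1 ∧ CL * δ₁ ≤ 1 / 20 ∧
      CF * δ₁ ≤ δ₂ / 4 ∧ 64 * CL * δ₁ ≤ cb / 10 ∧
      400 * Cη * δ₁ / δ₂ * (400 * CL / t) ≤ cη / 16 := by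
    refine ⟨min 1 (min (1 / (20 * CL)) (min (δ₂ / (4 * CF)) (min (cb / (640 * CL))
      (cη * δ₂ * t / (2560000 * Cη * CL))))), by positivity, min_le_left _ _, ?_, ?_, ?_, ?_⟩
    · refine (mul_le_mul_of_nonneg_left ((min_le_right _ _).trans (min_le_left _ _)) hCL.le).trans ?_
      apply le_of_eq; field_simp
    · refine (mul_le_mul_of_nonneg_left ((min_le_right _ _).trans ((min_le_right _ _).trans
        (min_le_left _ _))) hCF.le).trans ?_
      apply le_of_eq; field_simp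
    · refine (mul_le_mul_of_nonneg_left ((min_le_right _ _).trans ((min_le_right _ _).trans
        ((min_le_right _ _).trans (min_le_left _ _)))) (by positivity)).trans ?_
      apply le_of_eq; field_simp; norm_num
    · have h1 := ((min_le_right (1:ℝ) _).trans ((min_le_right (1 / (20 * CL)) _).trans
        ((min_le_right (δ₂ / (4 * CF)) _).trans (min_le_right (cb / (640 * CL))
          (cη * δ₂ * t / (2560000 * Cη * CL))))))
      set δ := min 1 (min (1 / (20 * CL)) (min (δ₂ / (4 * CF)) (min (cb / (640 * CL))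
      (cη * δ₂ * t / (2560000 * Cη * CL))))) with hδ
      have h2 : 400 * Cη * δ / δ₂ * (400 * CL / t) = (400 * Cη / δ₂ * (400 * CL / t)) * δ := by
        field_simp
      rw [h2]
      refine (mul_le_mul_of_nonneg_left h1 (by positivity)).trans ?_
      apply le_of_eq; field_simp; norm_num
  have hLδ : CL * (δ₁ + δ₂) ≤ 1 / 10 := by linarith
  set G : ℝ := 16 * Cη / δ₁ + 4 * Cη / δ₂ with hG
  have hG0 : 0 < G := by positivity
  obtain ⟨c, hc, hcb', hcη', hcδ₁, hcδ₂⟩ : ∃ c : ℝ, 0 < c ∧ 2 * c ≤ cb ∧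
      G * (4 * c / t) ≤ cη / 16 ∧ 4 * c / t ≤ δ₁ / 1000 ∧ 4 * c / t ≤ δ₂ / 1000 := by
    refine ⟨min (cb / 2) (min (cη * t / (64 * G)) (min (δ₁ * t / 4000) (δ₂ * t / 4000))),
      by positivity, ?_, ?_, ?_, ?_⟩
    · linarith [min_le_left (cb / 2) (min (cη * t / (64 * G)) (min (δ₁ * t / 4000) (δ₂ * t / 4000)))]
    · have h1 : min (cb / 2) (min (cη * t / (64 * G)) (min (δ₁ * t / 4000) (δ₂ * t / 4000))) ≤
        cη * t / (64 * G) := (min_le_right _ _).trans (min_le_left _ _)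
      have h2 : G * (4 * min (cb / 2) (min (cη * t / (64 * G)) (min (δ₁ * t / 4000)
          (δ₂ * t / 4000))) / t) ≤ G * (4 * (cη * t / (64 * G)) / t) := by gcongr
      refine h2.trans (le_of_eq ?_)
      field_simp; norm_num
    · have h1 : min (cb / 2) (min (cη * t / (64 * G)) (min (δ₁ * t / 4000) (δ₂ * t / 4000))) ≤
        δ₁ * t / 4000 := (min_le_right _ _).trans ((min_le_right _ _).trans (min_le_left _ _))
      have h2 : 4 * min (cb / 2) (min (cη * t / (64 * G)) (min (δ₁ * t / 4000)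
          (δ₂ * t / 4000))) / t ≤ 4 * (δ₁ * t / 4000) / t := by gcongr
      refine h2.trans (le_of_eq ?_)
      field_simp; norm_num
    · have h1 : min (cb / 2) (min (cη * t / (64 * G)) (min (δ₁ * t / 4000) (δ₂ * t / 4000))) ≤
        δ₂ * t / 4000 := (min_le_right _ _).trans ((min_le_right _ _).trans (min_le_right _ _))
      have h2 : 4 * min (cb / 2) (min (cη * t / (64 * G)) (min (δ₁ * t / 4000)
          (δ₂ * t / 4000))) / t ≤ 4 * (δ₂ * t / 4000) / t := by gcongr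
      refine h2.trans (le_of_eq ?_)
      field_simp; norm_num
  refine ⟨c, hc, fun ε Y hε => ?_⟩
  induction hn : Y.card using Nat.strong_induction_on generalizing Y with
  | _ n IH =>
  intro hEC a ha b hb
  have hYne : Y.Nonempty := ⟨a, ha⟩
  have hom := om_den Y hYne hε
  set d : ℝ := ‖a - b‖ with hd
  have hd0 : 0 ≤ d := norm_nonneg _
  by_cases hdε : d ≤ ε
  · obtain ⟨g, hg, hgo, -, hgm, -, hgG⟩ := hBMP' a ε hε
    refine ⟨g, hg, fun z => (hgo z).trans (om_mono (Finset.singleton_subset_iff.2 ha)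
      (Finset.singleton_nonempty a) hε z), ?_, hgG⟩
    refine le_trans ?_ hgm
    nlinarith
  have hdε' : ε < d := not_le.1 hdε
  have hdpos : 0 < d := hε.trans hdε'
  set δN : ℝ := min (cb * ε / 10) (c * ε / 10) with hδN
  have hδN0 : 0 < δN := by positivity
  have hδNb : δN ≤ cb * ε / 10 := min_le_left _ _
  have hδNc : δN ≤ c * ε / 10 := min_le_right _ _
  obtain ⟨h, hh, hho, hmax, hWT, -⟩ := hNM' (om Y ε) hom δN hδN0
  by_cases hm : 2 * c / t * d ≤ ∫ z, h z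
  · -- large mass
    have e1 : δN ≤ (∫ z, h z) / 8 := by
      have e2 : 2 * c * ε ≤ 2 * c / t * d := by
        have e3 : 2 * c ≤ 2 * c / t := by
          rw [le_div_iff₀ ht0]; nlinarith
        exact mul_le_mul e3 hdε'.le hε.le (by positivity)
      linarith [mul_pos hc hε]
    obtain ⟨g, hg, hgh, hgm, hgG⟩ := hIMP' h hh (hWT.mono_C le_rfl e1)
    refine ⟨g, hg, fun z => (hgh z).trans (hho z), le_trans ?_ hgm, hgG⟩
    have e4 : t * (2 * c / t * d) ≤ t * ∫ z, h z := mul_le_mul_of_nonneg_left hm ht0.le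
    have e5 : t * (2 * c / t * d) = 2 * c * d := by field_simp
    rw [e5] at e4
    nlinarith
  exfalso
  have hm' : (∫ z, h z) < 2 * c / t * d := not_le.1 hm
  have hHM : HM h univ ≤ 4 * c / t * d := by
    have e1 := HM_univ hh
    have e2 : 4 * c / t * d = 2 * (2 * c / t * d) := by ring
    rw [e2]; linarith
  have hHM0 : 0 ≤ HM h univ := HM_nonneg hh _
  -- large radii are good
  have hbig : ∀ (y : ℂ) (ρ : ℝ), d / 1000 ≤ ρ → ¬ Bad h δ₁ δ₂ y ρ := by
    intro y ρ hρ hB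
    have hρ0 : 0 < ρ := lt_of_lt_of_le (by positivity) hρ
    have e1 : HM h univ ≤ δ₁ * ρ := by
      calc HM h univ ≤ 4 * c / t * d := hHM
        _ ≤ δ₁ / 1000 * d := mul_le_mul_of_nonneg_right hcδ₁ hd0
        _ = δ₁ * (d / 1000) := by ring
        _ ≤ δ₁ * ρ := mul_le_mul_of_nonneg_left hρ hδ₁.le
    have e2 : HM h univ / ρ ≤ δ₂ := by
      rw [div_le_iff₀ hρ0]
      calc HM h univ ≤ 4 * c / t * d := hHM
        _ ≤ δ₂ / 1000 * d := mul_le_mul_of_nonneg_right hcδ₂ hd0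
        _ = δ₂ * (d / 1000) := by ring
        _ ≤ δ₂ * ρ := mul_le_mul_of_nonneg_left hρ hδ₂.le
    rcases hB with h1 | h1 | h1
    · exact absurd (h1.trans_le ((HM_le_univ hh _).trans e1)) (lt_irrefl _)
    · exact absurd (h1.trans_le ((FK_bound hh y hρ0).trans e2)) (lt_irrefl _)
    · exact absurd (h1.trans_le ((FL_bound hh y hρ0).trans e2)) (lt_irrefl _)
  -- there are bad radii
  have hbadex : ∀ y ∈ Y, ∃ ρ, 64 * ε ≤ ρ ∧ Bad h δ₁ δ₂ y ρ := by
    intro y hy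
    by_contra hcon
    push Not at hcon
    obtain ⟨g, hg, hgo, hgs, hgm, hgm', hgG⟩ := hBMP' y ε hε
    have hgood : ∀ ρ, 64 * ε ≤ ρ → HM h (ball y ρ) ≤ δ₁ * ρ := by
      intro ρ hρ
      by_contra h1
      exact hcon ρ hρ (Or.inl (not_le.1 h1))
    have hK : ‖FK h y (4 * (16 * ε)) y‖ ≤ δ₂ := by
      by_contra h1
      exact hcon _ (by linarith) (Or.inr (Or.inl (not_le.1 h1)))
    have hL : ‖FL h y (4 * (16 * ε)) y‖ ≤ δ₂ := by
      by_contra h1
      exact hcon _ (by linarith) (Or.inr (Or.inr (not_le.1 h1)))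
    have h2 := hLOC' h y (16 * ε) δ₁ δ₂ hh (by positivity) hδ₁.le hδ₁1 hδ₂.le hδ₂1
      (fun ρ hρ => hgood ρ (by linarith)) hK hL g hg (fun z hz => (hgs z hz).trans (by linarith))
      (by linarith)
    have h3 := step hh hho hmax (by positivity) hLδ hg (fun z => (hgo z).trans
      (om_mono (Finset.singleton_subset_iff.2 hy) (Finset.singleton_nonempty y) hε z))
      (fun z hz => (hgs z hz).trans (by linarith)) hgG h2
    have h4 := hgood (4 * (16 * ε)) (by linarith)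
    have h5 : CL * HM h (ball y (4 * (16 * ε))) ≤ cb / 10 * ε := by
      calc CL * HM h (ball y (4 * (16 * ε))) ≤ CL * (δ₁ * (4 * (16 * ε))) :=
            mul_le_mul_of_nonneg_left h4 hCL.le
        _ = (64 * CL * δ₁) * ε := by ring
        _ ≤ cb / 10 * ε := mul_le_mul_of_nonneg_right hδ₁b hε.le
    have h6 : 0 < cb * ε := mul_pos hcb hε
    linarith
  -- the stopping radius
  set s : ℂ → ℝ := fun y => sSup {ρ | 64 * ε ≤ ρ ∧ Bad h δ₁ δ₂ y ρ} with hs
  have hsbdd : ∀ y, BddAbove {ρ | 64 * ε ≤ ρ ∧ Bad h δ₁ δ₂ y ρ} := by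
    intro y
    refine ⟨d / 1000, fun ρ hρ => ?_⟩
    by_contra h1
    exact hbig y ρ (not_le.1 h1).le hρ.2
  have hs64 : ∀ y ∈ Y, 64 * ε ≤ s y := by
    intro y hy
    obtain ⟨ρ, h1, h2⟩ := hbadex y hy
    exact h1.trans (le_csSup (hsbdd y) ⟨h1, h2⟩)
  have hsd : ∀ y ∈ Y, s y ≤ d / 1000 := by
    intro y hy
    obtain ⟨ρ, h1, h2⟩ := hbadex y hy
    refine csSup_le ⟨ρ, h1, h2⟩ fun ρ' hρ' => ?_
    by_contra h3
    exact hbig y ρ' (not_le.1 h3).le hρ'.2
  have hs0 : ∀ y ∈ Y, 0 < s y := fun y hy => lt_of_lt_of_le (by positivity) (hs64 y hy)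
  have hgood : ∀ y ∈ Y, ∀ ρ, s y < ρ → ¬ Bad h δ₁ δ₂ y ρ := by
    intro y hy ρ hρ hB
    exact absurd (le_csSup (hsbdd y) ⟨(hs64 y hy).trans hρ.le, hB⟩) (not_le.2 hρ)
  have hgood1 : ∀ y ∈ Y, ∀ ρ, s y < ρ → HM h (ball y ρ) ≤ δ₁ * ρ := by
    intro y hy ρ hρ
    by_contra h1
    exact hgood y hy ρ hρ (Or.inl (not_le.1 h1))
  have hbad : ∀ y ∈ Y, ∃ ρ, s y / 2 ≤ ρ ∧ ρ ≤ s y ∧ Bad h δ₁ δ₂ y ρ := by
    intro y hy
    obtain ⟨ρ0, h01, h02⟩ := hbadex y hy
    obtain ⟨ρ, ⟨h1, h2⟩, h3⟩ := exists_lt_of_lt_csSup (s := {ρ | 64 * ε ≤ ρ ∧ Bad h δ₁ δ₂ y ρ})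
      ⟨ρ0, h01, h02⟩ (show s y / 2 < sSup {ρ | 64 * ε ≤ ρ ∧ Bad h δ₁ δ₂ y ρ} from
        half_lt_self (hs0 y hy))
    exact ⟨ρ, h3.le, le_csSup (hsbdd y) ⟨h1, h2⟩, h2⟩
  -- local lower bound for the mass
  have hlow : ∀ y ∈ Y, s y ≤ 100 * CL / c * HM h (ball y (2 * s y)) := by
    intro y hy
    have hsy := hs0 y hy
    have hsy64 := hs64 y hy
    have hsyd := hsd y hy
    have hfar : ∃ b' ∈ Y, s y / 8 ≤ ‖b' - y‖ := by
      by_contra hcon
      push Not at hcon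
      have h1 := hcon a ha
      have h2 := hcon b hb
      have h3 : d ≤ ‖a - y‖ + ‖b - y‖ := by
        rw [hd, show a - b = (a - y) - (b - y) by ring]
        exact norm_sub_le _ _
      linarith
    obtain ⟨b', hb', hb'd⟩ := hfar
    obtain ⟨Y', hY'Y, hyY', hEC', hY'R, z', hz', hz'd⟩ := hCMP ε (s y / 8) Y y b' hε (by positivity)
      hEC hy hb' hb'd
    have hcard : Y'.card < n := by
      rw [← hn]
      refine Finset.card_lt_card ⟨hY'Y, fun hsub => ?_⟩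
      have h1 := hY'R a (hsub ha)
      have h2 := hY'R b (hsub hb)
      have h3 : d ≤ ‖a - y‖ + ‖b - y‖ := by
        rw [hd, show a - b = (a - y) - (b - y) by ring]
        exact norm_sub_le _ _
      linarith
    obtain ⟨g, hg, hgo, hgm, hgG⟩ := IH Y'.card hcard Y' rfl hEC' z' hz' y hyY'
    have hY'ne : Y'.Nonempty := ⟨y, hyY'⟩
    have hgs : ∀ z, g z ≠ 0 → ‖z - y‖ ≤ s y / 2 / 2 := by
      intro z hz
      have h1 : om Y' ε z ≠ 0 := by
        intro h0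
        have h2 := hgo z
        rw [h0] at h2
        exact hz (le_antisymm h2 (hg.nonneg z))
      obtain ⟨y1, hy1, hy1z⟩ := om_near hY'ne hε h1
      have h2 := hY'R y1 hy1
      have h3 : ‖z - y‖ ≤ ‖z - y1‖ + ‖y1 - y‖ := by
        rw [show z - y = (z - y1) + (y1 - y) by ring]
        exact norm_add_le _ _
      linarith
    have hg4 : ∫ z, g z ≤ 4 * (s y / 2) := by
      have h1 := hRAD g hg y (s y / 2 / 2) (by positivity) fun z hz => by
        by_contra h0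
        exact absurd (hgs z h0) (not_le.2 hz)
      linarith
    have hK : ‖FK h y (4 * (s y / 2)) y‖ ≤ δ₂ := by
      by_contra h1
      exact hgood y hy (4 * (s y / 2)) (by linarith) (Or.inr (Or.inl (not_le.1 h1)))
    have hL : ‖FL h y (4 * (s y / 2)) y‖ ≤ δ₂ := by
      by_contra h1
      exact hgood y hy (4 * (s y / 2)) (by linarith) (Or.inr (Or.inr (not_le.1 h1)))
    have h2 := hLOC' h y (s y / 2) δ₁ δ₂ hh (by positivity) hδ₁.le hδ₁1 hδ₂.le hδ₂1
      (fun ρ hρ => hgood1 y hy ρ (by linarith)) hK hL g hg hgs hg4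
    have h3 := step hh hho hmax (by positivity) hLδ hg (fun z => (hgo z).trans
      (om_mono hY'Y hY'ne hε z)) hgs hgG h2
    have e0 : 4 * (s y / 2) = 2 * s y := by ring
    rw [e0] at h3
    have h4 : c * (s y / 10) ≤ ∫ z, g z := by
      refine le_trans ?_ hgm
      refine mul_le_mul_of_nonneg_left ?_ hc.le
      linarith
    have h5 : δN ≤ c * s y / 640 := by
      refine hδNc.trans ?_
      have := mul_le_mul_of_nonneg_left hsy64 hc.le
      linarith
    have h6 : c * s y / 100 ≤ CL * HM h (ball y (2 * s y)) := by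
      have : 0 < c * s y := mul_pos hc hsy
      linarith
    have h7 : 100 * CL / c * HM h (ball y (2 * s y)) = (100 / c) * (CL * HM h (ball y (2 * s y))) := by
      ring
    rw [h7]
    have h8 : s y = (100 / c) * (c * s y / 100) := by field_simp
    calc s y = (100 / c) * (c * s y / 100) := h8
      _ ≤ _ := mul_le_mul_of_nonneg_left h6 (by positivity)
  -- covering and chain
  obtain ⟨J, n', z, hJY, hJdis, hzJ, hzinj, hz0, hzn, hzst⟩ := hGEO ε Y (fun y => 2 * s y) hε hEC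
    (fun y hy => by linarith [hs64 y hy]) a ha b hb
  have hsum : ∑ y ∈ J, s y ≤ 400 * CL / t * d := by
    calc ∑ y ∈ J, s y ≤ ∑ y ∈ J, 100 * CL / c * HM h (ball y (2 * s y)) :=
          Finset.sum_le_sum fun y hy => hlow y (hJY hy)
      _ = 100 * CL / c * ∑ y ∈ J, HM h (ball y (2 * s y)) := by rw [Finset.mul_sum]
      _ ≤ 100 * CL / c * HM h univ :=
          mul_le_mul_of_nonneg_left (HM_sum hh J (fun y => 2 * s y) hJdis) (by positivity)
      _ ≤ 100 * CL / c * (4 * c / t * d) := mul_le_mul_of_nonneg_left hHM (by positivity)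
      _ = 400 * CL / t * d := by field_simp; ring
  have hplen : plen z n' ≤ 9600 * CL / t * (d / 2) := by
    have e1 := plen_bound z n' J (fun y => 2 * s y) (fun y hy => by linarith [hs0 y (hJY hy)]) hzJ
      hzinj hzst
    rw [← Finset.mul_sum] at e1
    have e2 : 9600 * CL / t * (d / 2) = 12 * (400 * CL / t * d) := by ring
    rw [e2]
    linarith
  have hend : d / 2 ≤ ‖z n' - z 0‖ := by
    have e1 := hsd _ (hJY (hzJ 0 (Nat.zero_le _)))
    have e2 := hsd _ (hJY (hzJ n' le_rfl))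
    have e3 : d ≤ ‖z 0 - a‖ + ‖z n' - z 0‖ + ‖z n' - b‖ := by
      rw [hd, show a - b = -(z 0 - a) - (z n' - z 0) + (z n' - b) by ring]
      refine (norm_add_le _ _).trans (add_le_add_left ?_ _)
      refine (norm_sub_le _ _).trans ?_
      rw [norm_neg]
    have e4 := hz0
    have e5 := hzn
    linarith
  set δη : ℝ := cη * d / (16 * (3 * (J.card : ℝ) + 2)) with hδη
  have hδη0 : 0 < δη := by positivity
  obtain ⟨η, hη, hηN, hηm, hηWT, hηgr⟩ := hPG z n' (d / 2) (by positivity) hend hplen ε δη hε hδη0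
  have hcov : ∀ w, η w ≠ 0 → ∃ y ∈ J, ‖w - y‖ < 8 * s y := by
    intro w hw
    obtain ⟨i, hi, τ, hτ0, hτ1, hτ⟩ := hηN w hw
    have g1 := hzst i hi
    have s1 := hs64 _ (hJY (hzJ i hi.le))
    have s2 := hs64 _ (hJY (hzJ (i + 1) hi))
    have hl0 : 0 ≤ ‖z (i + 1) - z i‖ := norm_nonneg _
    by_cases hc1 : τ * ‖z (i + 1) - z i‖ ≤ 6 * s (z i)
    · refine ⟨z i, hzJ i hi.le, ?_⟩
      have e1 : ‖w - z i‖ ≤ ‖w - (z i + τ * (z (i + 1) - z i))‖ + ‖(τ : ℂ) * (z (i + 1) - z i)‖ := by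
        rw [show w - z i = (w - (z i + τ * (z (i + 1) - z i))) + (τ : ℂ) * (z (i + 1) - z i) by ring]
        refine (norm_add_le _ _).trans (le_of_eq ?_)
        congr 2
      rw [norm_mul, Complex.norm_real, Real.norm_eq_abs, abs_of_nonneg hτ0] at e1
      linarith
    · refine ⟨z (i + 1), hzJ (i + 1) hi, ?_⟩
      have e1 : ‖w - z (i + 1)‖ ≤ ‖w - (z i + τ * (z (i + 1) - z i))‖ +
          ‖((1 - τ : ℝ) : ℂ) * (z (i + 1) - z i)‖ := by
        rw [show w - z (i + 1) = (w - (z i + τ * (z (i + 1) - z i))) -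
          ((1 - τ : ℝ) : ℂ) * (z (i + 1) - z i) by push_cast; ring]
        refine (norm_sub_le _ _).trans (le_of_eq ?_)
        congr 2
      rw [norm_mul, Complex.norm_real, Real.norm_eq_abs, abs_of_nonneg (by linarith)] at e1
      have e2 : (1 - τ) * ‖z (i + 1) - z i‖ ≤ 6 * s (z (i + 1)) := by
        have := not_le.1 hc1
        linarith
      linarith
  have hcnt := count hCAU hFLD' hη hCη hηWT hηgr hh hδ₁ hδ₂ hδη0.le hδ₁F J s
    (fun y hy => hs0 y (hJY hy)) hJdis hcov (fun y hy => hgood1 y (hJY hy))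
    (fun y hy => hbad y (hJY hy))
  have f1 : (16 * Cη / δ₁ + 4 * Cη / δ₂) * HM h univ ≤ cη / 16 * d := by
    rw [← hG]
    calc G * HM h univ ≤ G * (4 * c / t * d) := mul_le_mul_of_nonneg_left hHM hG0.le
      _ = G * (4 * c / t) * d := by ring
      _ ≤ cη / 16 * d := mul_le_mul_of_nonneg_right hcη' hd0
  have f2 : 400 * Cη * δ₁ / δ₂ * ∑ y ∈ J, s y ≤ cη / 16 * d := by
    calc 400 * Cη * δ₁ / δ₂ * ∑ y ∈ J, s y ≤ 400 * Cη * δ₁ / δ₂ * (400 * CL / t * d) :=
          mul_le_mul_of_nonneg_left hsum (by positivity)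
      _ = 400 * Cη * δ₁ / δ₂ * (400 * CL / t) * d := by ring
      _ ≤ cη / 16 * d := mul_le_mul_of_nonneg_right hδ₁η hd0
  have f3 : (3 * (J.card : ℝ) + 2) * δη = cη / 16 * d := by
    rw [hδη]
    field_simp
  have f4 : 0 < cη * d := mul_pos hcη hdpos
  rw [f3] at hcnt
  linarith

end Pool.Agent.Q130.TC
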