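import Pool.Agent.Q130.TC.Stm2
import Pool.Agent.Y271.RO.Final

/-!
# Project TC (helper130): assembly of the operator part
-/

set_option autoImplicit false

namespace Pool.Agent.Q130.TC

open MeasureTheory Set Metric Filter Topology
open scoped InnerProductSpace ENNReal NNReal ComplexConjugate ContDiff
open Pool.Agent.H352R3.SA (Den)
open Pool.Agent.Y283.NK (ct IsMul HasHyp Repr fr LocVec cj)
open Pool.Agent.Y271.RO

theorem hTRC : Pool.Agent.Y283.NK.S_TRC := Pool.Agent.Y77.NK.main_trc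

/-- the alternative -/
theorem dich2 (f : ℂ → ℂ) (a : ℂ) (r : ℝ) (hr : 0 < r)
    (hf : Measurable f) (hi : IntegrableOn f (ball a r))
    (hne : ∀ᵐ z ∂(volume.restrict (ball a r)), f z ≠ 0) :
    (∀ k : ℕ, ∃ n : ℕ, k ≤ n ∧
      Cheap (pw (fd f a r) (1 / (n + 1))) a (1 / (k + 1)) r (1 / (k + 1))) ∨
      ∃ τ, 0 < τ ∧ τ < 2 * r ∧ Cut f a τ (2 * r) := by
  by_cases h : ∀ k : ℕ, ∃ n : ℕ, k ≤ n ∧
      Cheap (pw (fd f a r) (1 / (n + 1))) a (1 / (k + 1)) r (1 / (k + 1))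
  · exact Or.inl h
  right
  push Not at h
  obtain ⟨k, hk⟩ := h
  have hk1 : (0:ℝ) < 1 / ((k:ℝ) + 1) := by positivity
  set τ0 : ℝ := min (1 / ((k:ℝ) + 1)) (r / 2) with hτ0
  have hτpos : 0 < τ0 := lt_min hk1 (by positivity)
  have hτr : τ0 < r := (min_le_right _ _).trans_lt (by linarith)
  obtain ⟨hc, hL⟩ := hPCA (fd f a r) (fd_integrable hi) (fd_nonneg f a r)
  have hstep : ∀ n : ℕ, ∃ Θ' : ℂ → ℂ, ContDiff ℝ ∞ Θ' ∧ (∀ z ∈ ball a (τ0 / 2), Θ' z = 1) ∧
      (∀ z, 2 * r ≤ ‖z - a‖ → Θ' z = 0) ∧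
      ∀ z, ‖db Θ' z‖ ≤ 1 / (1 / ((k:ℝ) + 1)) *
        (pw (fd f a r) (1 / ((n + k : ℕ) + 1)) z + 1 / (n + 1)) := by
    intro n
    have hε : (0:ℝ) < 1 / (((n + k : ℕ) : ℝ) + 1) := by positivity
    obtain ⟨hWc, hW0⟩ := hc _ hε
    rcases hALT _ a τ0 r (1 / ((k:ℝ) + 1)) hWc hW0 hτpos hτr hk1 with h1 | ⟨Θ, h1, h2, h3, h4⟩
    · exact absurd (h1.mono (min_le_left _ _)) (hk (n + k) (by omega))
    · exact hSMO _ Θ a τ0 r (1 / ((k:ℝ) + 1)) (1 / ((n:ℝ) + 1)) hWc hW0 hτpos hτr hk1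
        (by positivity) h1 h2 h3 h4
  choose Θ' h1 h2 h3 h4 using hstep
  exact ⟨τ0 / 2, by positivity, by linarith, hCUTA hPCA f a (τ0 / 2) r (1 / ((k:ℝ) + 1)) k
    (by positivity) (by linarith) hk1 hf hi hne Θ' h1 h2 h3 h4⟩

section

variable {S : Type} [MeasurableSpace S] {μ : Measure S} [SigmaFinite μ] {φ : S → ℂ}
  {N K : Lp ℂ 2 μ →L[ℂ] Lp ℂ 2 μ} {u v : ℕ → Lp ℂ 2 μ}

/-- Case B -/
theorem caseB2 (hCSB : S_CSB) (hSRK : S_SRK) (hN : IsMul φ N) (hK : Repr K u v) {w : ℂ → ℝ}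
    (hw : IsW φ u v w) (a : ℂ) (τ r : ℝ) (hτ : 0 < τ) (hτr : τ < r)
    (hC : Cut (fun z => (w z : ℂ)) a τ r) (hE : Ess N a) : HasCh (N + K) a r := by
  by_contra hno
  have hch : ∀ Y, IsChain (N + K) a r Y → Y 0 = 0 := by
    intro Y hY
    by_contra h0
    exact hno ⟨Y, hY, h0⟩
  have hKc : IsCompactOperator (⇑K) := (hTRC _ K u v hK).2.1
  refine hSRK (Lp ℂ 2 μ) N K a hKc hE fun x => ?_
  obtain ⟨x₁, x₂, W, c, e1, e2, e3⟩ := hFAR S μ φ N hN 0 0 a (τ / 2) (by positivity) x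
  obtain ⟨X, Z, C, h1, h2, h3, h4⟩ := hCSB S μ φ N K hN u v hK w hw a τ r hτ hτr hC x₁ e2
  obtain ⟨Y, W', hY, hx⟩ := (hWLIM (Lp ℂ 2 μ) (N + K) a r C X (by linarith) h1 h3).1 a x₁ Z C
    h2 h4
  have e4 : x₂ = N W - a • W := by
    rw [e3]
    unfold T1
    simp
  have e5 : x₁ = (N + K) W' - a • W' := by rw [hx, hch Y hY, zero_add]
  refine ⟨W' + W, -W, ?_⟩
  rw [e1, e5, e4, map_add, map_neg, smul_add]
  simp only [add_apply]
  abel

/-- Case A -/
theorem caseA2 (hCSA : S_CSA) (hLNK : S_LNK) (hN : IsMul φ N) (hK : Repr K u v) (hI : Inj u v)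
    {w : ℂ → ℝ} (hw : IsW φ u v w) (a : ℂ) (r : ℝ) (hr : 0 < r)
    (h : ∀ k : ℕ, ∃ n : ℕ, k ≤ n ∧
      Cheap (pw (fd (fun z => (w z : ℂ)) a r) (1 / (n + 1))) a (1 / (k + 1)) r (1 / (k + 1))) :
    HasCh (N + K) a (4 * r) := by
  have hwm : Measurable (fun z => (w z : ℂ)) := Complex.measurable_ofReal.comp hw.meas
  have hwi : IntegrableOn (fun z => (w z : ℂ)) (ball a r) :=
    ((hw.loc.integrableOn_isCompact (isCompact_closedBall a r)).mono_set
      ball_subset_closedBall).ofReal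
  obtain ⟨C, c₀, l, δ, hC, hc₀, hl, hls, hli, hδ0, hδ, hWT, hlim⟩ := hLNK _ a r hr hwm hwi h
  have hB : ∀ n, ∃ B : ℝ, ∀ z, l n z ≤ B := by
    intro n
    obtain ⟨B, hB⟩ := (hl n).supp.exists_bound_of_continuous (hl n).cont
    exact ⟨B, fun z => (le_abs_self _).trans (hB z)⟩
  choose B hB using hB
  refine hCSA S μ φ N K hN u v hK hI w hw a r (max C c₀) c₀ l B δ hr (lt_max_of_lt_left hC) hc₀
    (fun n => (hl n).cont.measurable) (fun n z => ⟨(hl n).nonneg z, hB n z⟩) hls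
    (fun n => (hli n).ge) (fun n => (hli n).le.trans (le_max_right _ _)) hδ0 hδ (fun n => ?_) ?_
  · intro S' _ μ' _ φ' k hφ' hk t ht
    refine (hWT n S' μ' φ' k hφ' hk t ht).trans ?_
    have h1 : 0 ≤ ∫ s, ‖k s‖ ∂μ' := integral_nonneg fun _ => norm_nonneg _
    have h2 : C * (∫ s, ‖k s‖ ∂μ') / t ≤ max C c₀ * (∫ s, ‖k s‖ ∂μ') / t := by
      gcongr
      exact le_max_left _ _
    linarith
  · refine hlim.congr fun n => ?_
    refine integral_congr_ae (Eventually.of_forall fun z => ?_)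
    show ‖(w z : ℂ)‖ * l n z = w z * l n z
    rw [Complex.norm_real, Real.norm_eq_abs, abs_of_nonneg (hw.nonneg z)]

/-- the limit of the smallest singular values vanishes on a set of positive area -/
theorem caseZ (hCSA : S_CSA) (hWTI : S_WTI) (hN : IsMul φ N) (hK : Repr K u v) (hI : Inj u v)
    {w : ℂ → ℝ} (hw : IsW φ u v w) (a : ℂ) (r : ℝ) (hr : 0 < r)
    (h : ¬ ∀ᵐ z ∂(volume.restrict (ball a r)), (w z : ℂ) ≠ 0) : HasCh (N + K) a (4 * r) := by
  set G : Set ℂ := {z | w z = 0} ∩ ball a r with hG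
  have hGm : MeasurableSet G := (hw.meas (measurableSet_singleton 0)).inter measurableSet_ball
  have hGv : volume G ≠ 0 := by
    intro h0
    apply h
    rw [ae_iff, Measure.restrict_apply']
    · refine measure_mono_null ?_ h0
      rintro z ⟨h1, h2⟩
      refine ⟨?_, h2⟩
      simpa using h1
    · exact measurableSet_ball
  have hGf : volume G ≠ ⊤ := ne_top_of_le_ne_top measure_ball_lt_top.ne
    (measure_mono (inter_subset_right : G ⊆ ball a r))
  obtain ⟨C, hC, hWT⟩ := hWTI r hr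
  set c₀ : ℝ := (volume G).toReal with hc₀
  have hc₀p : 0 < c₀ := ENNReal.toReal_pos hGv hGf
  have hint : ∫ z, G.indicator (fun _ => (1:ℝ)) z = c₀ := by
    rw [integral_indicator hGm]
    simp [hc₀, Measure.real]
  refine hCSA S μ φ N K hN u v hK hI w hw a r (max C c₀) c₀
    (fun _ => G.indicator fun _ => (1:ℝ)) (fun _ => 1) (fun _ => 0) hr (lt_max_of_lt_left hC) hc₀p
    (fun n => measurable_const.indicator hGm) (fun n z => ?_) (fun n z hz => ?_)
    (fun n => hint.ge) (fun n => hint.le.trans (le_max_right _ _)) (fun _ => le_rfl)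
    tendsto_const_nhds (fun n => ?_) ?_
  · by_cases hz : z ∈ G
    · rw [indicator_of_mem hz]; norm_num
    · rw [indicator_of_notMem hz]; norm_num
  · exact indicator_of_notMem (fun h1 => hz h1.2) _
  · intro S' _ μ' _ φ' k hφ' hk t ht
    refine (hWT a G hGm inter_subset_right S' μ' φ' k hφ' hk t ht).trans ?_
    have h1 : 0 ≤ ∫ s, ‖k s‖ ∂μ' := integral_nonneg fun _ => norm_nonneg _
    have h2 : C * (∫ s, ‖k s‖ ∂μ') / t ≤ max C c₀ * (∫ s, ‖k s‖ ∂μ') / t := by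
      gcongr
      exact le_max_left _ _
    linarith
  · have h0 : ∀ z, w z * G.indicator (fun _ => (1:ℝ)) z = 0 := by
      intro z
      by_cases hz : z ∈ G
      · have : w z = 0 := hz.1
        rw [this, zero_mul]
      · rw [indicator_of_notMem hz, mul_zero]
    simp only [h0, integral_zero]
    exact tendsto_const_nhds

/-- chains at all points of the essential spectrum -/
theorem chain2 (hCSA : S_CSA) (hCSB : S_CSB) (hSRK : S_SRK) (hLNK : S_LNK) (hWTI : S_WTI)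
    (hLW : S_LW) (hRED : S_RED) (hN : IsMul φ N) (hK : Repr K u v) (a : ℂ) (r : ℝ) (hr : 0 < r)
    (hE : Ess N a) : HasCh (N + K) a r := by
  obtain ⟨u', v', hK', hI⟩ := hRED _ K u v hK
  obtain ⟨w, hw⟩ := hLW S μ φ hN.meas u' v' hK'.1 hK'.2.1
  have hwm : Measurable (fun z => (w z : ℂ)) := Complex.measurable_ofReal.comp hw.meas
  have hwi : IntegrableOn (fun z => (w z : ℂ)) (ball a (r / 4)) :=
    ((hw.loc.integrableOn_isCompact (isCompact_closedBall a (r / 4))).mono_set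
      ball_subset_closedBall).ofReal
  by_cases hne : ∀ᵐ z ∂(volume.restrict (ball a (r / 4))), (w z : ℂ) ≠ 0
  · rcases dich2 (fun z => (w z : ℂ)) a (r / 4) (by positivity) hwm hwi hne with h | ⟨τ, h1, h2, h3⟩
    · exact (caseA2 hCSA hLNK hN hK' hI hw a (r / 4) (by positivity) h).mono (by positivity)
        (by linarith)
    · exact (caseB2 hCSB hSRK hN hK' hw a τ (2 * (r / 4)) h1 h2 h3 hE).mono (by positivity)
        (by linarith)
  · exact (caseZ hCSA hWTI hN hK' hI hw a (r / 4) (by positivity) hne).mono (by positivity)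
      (by linarith)

end

/-- the statement about chains -/
def S_CHN : Prop :=
  ∀ (S : Type) [MeasurableSpace S] (μ : Measure S) [SigmaFinite μ] (φ : S → ℂ)
    (N K : Lp ℂ 2 μ →L[ℂ] Lp ℂ 2 μ) (u v : ℕ → Lp ℂ 2 μ), IsMul φ N → Repr K u v →
    ∀ (a : ℂ) (r : ℝ), 0 < r → Ess N a → HasCh (N + K) a r

/-- small local spectra at every point of the spectrum -/
theorem locVec2 (hCHN : S_CHN) {S : Type} [MeasurableSpace S] {μ : Measure S} [SigmaFinite μ]
    {φ : S → ℂ} {N K : Lp ℂ 2 μ →L[ℂ] Lp ℂ 2 μ} {u v : ℕ → Lp ℂ 2 μ} (hN : IsMul φ N)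
    (hK : Repr K u v) : LocVec (N + K) := by
  intro c hc ε hε
  have hKc : IsCompactOperator (⇑K) := (hTRC _ K u v hK).2.1
  rcases hFRE S μ φ N hN c with hE | ⟨A, F, h1, h2, h3⟩
  · obtain ⟨X, ⟨X1, C, X2⟩, X3⟩ := hCHN S μ φ N K u v hN hK c ε hε hE
    refine ⟨X 0, C, X3, fun n => ?_⟩
    rw [Pool.Agent.Y283.NK.pow_of_rec X1]
    exact X2 n
  · have h4 : N + K = A + (F + K) := by
      rw [h1]
      abel
    have hc' : c ∈ spectrum ℂ (A + (F + K)) := by rwa [← h4]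
    obtain ⟨x, hx0, hx⟩ := Pool.Agent.W706.HIR.eigen_of_spectrum (h2.add hKc)
      (by
        by_contra h
        exact h3 h) hc'
    rw [← h4] at hx
    refine ⟨x, ‖x‖, hx0, fun n => ?_⟩
    have h5 : (N + K - c • (1 : Lp ℂ 2 μ →L[ℂ] Lp ℂ 2 μ)) x = 0 := by
      show (N + K) x - c • x = 0
      rw [hx, sub_self]
    cases n with
    | zero => simp
    | succ n =>
      have h6 : ((N + K - c • (1 : Lp ℂ 2 μ →L[ℂ] Lp ℂ 2 μ)) ^ (n + 1)) x = 0 := by
        rw [pow_succ]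
        show ((N + K - c • (1 : Lp ℂ 2 μ →L[ℂ] Lp ℂ 2 μ)) ^ n)
          ((N + K - c • (1 : Lp ℂ 2 μ →L[ℂ] Lp ℂ 2 μ)) x) = 0
        rw [h5, map_zero]
      rw [h6, norm_zero]
      positivity

theorem cj_add {H H' : Type} [NormedAddCommGroup H] [InnerProductSpace ℂ H]
    [NormedAddCommGroup H'] [InnerProductSpace ℂ H'] (W : H' ≃ₗᵢ[ℂ] H) (N K : H →L[ℂ] H) :
    cj W (N + K) = cj W N + cj W K := by
  ext f
  show W.symm (N (W f) + K (W f)) = W.symm (N (W f)) + W.symm (K (W f))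
  rw [map_add]

/-- the theorem -/
theorem main2 (hCHN : S_CHN)
    (H : Type) [NormedAddCommGroup H] [InnerProductSpace ℂ H] [CompleteSpace H]
    [TopologicalSpace.SeparableSpace H] (N K : H →L[ℂ] H) (hN : IsStarNormal N) (u v : ℕ → H)
    (hK : Repr K u v) :
    ((∃ c : ℂ, N + K = c • 1) ∨ HasHyp (N + K)) ∧ LocVec (N + K) ∧
      LocVec (ContinuousLinearMap.adjoint (N + K)) := by
  have hKc : IsCompactOperator (⇑K) := (hTRC _ K u v hK).2.1
  obtain ⟨S, _, μ, _, φ, W, hMul, -⟩ := exists_model H N hN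
  obtain ⟨hKa, -, -, hKW⟩ := hTRC _ K u v hK
  have hKM : Repr (cj W K) (fun j => W.symm (u j)) (fun j => W.symm (v j)) :=
    hKW (Lp ℂ 2 μ) W (cj W K) (fun f => Pool.Agent.Y283.NK.W_cj W K f)
  have hL1 : LocVec (N + K) := by
    have h := locVec2 hCHN hMul hKM
    rw [← cj_add] at h
    exact Pool.Agent.Y283.NK.locvec_of_cj W h
  have hadj : ∀ T : H →L[ℂ] H, ContinuousLinearMap.adjoint (cj W T) =
      cj W (ContinuousLinearMap.adjoint T) := by
    intro T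
    ext1 f
    refine ext_inner_right ℂ fun y => ?_
    rw [ContinuousLinearMap.adjoint_inner_left, Pool.Agent.Y283.NK.cj_apply,
      Pool.Agent.Y283.NK.cj_apply]
    calc ⟪f, W.symm (T (W y))⟫_ℂ = ⟪W f, T (W y)⟫_ℂ := by
          rw [← W.inner_map_map, LinearIsometryEquiv.apply_symm_apply]
      _ = ⟪ContinuousLinearMap.adjoint T (W f), W y⟫_ℂ := by
          rw [ContinuousLinearMap.adjoint_inner_left]
      _ = ⟪W.symm (ContinuousLinearMap.adjoint T (W f)), y⟫_ℂ := by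
          rw [← W.inner_map_map, LinearIsometryEquiv.apply_symm_apply]
  have hL2 : LocVec (ContinuousLinearMap.adjoint (N + K)) := by
    have hKM' : Repr (ContinuousLinearMap.adjoint (cj W K)) (fun j => W.symm (v j))
        (fun j => W.symm (u j)) := (hTRC _ (cj W K) _ _ hKM).1
    have h := locVec2 hCHN (Pool.Agent.Y77.NK.isMul_adj hMul) hKM'
    rw [← map_add, ← cj_add, hadj] at h
    exact Pool.Agent.Y283.NK.locvec_of_cj W h
  refine ⟨?_, hL1, hL2⟩
  by_cases hsc : ∃ c : ℂ, N + K = c • 1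
  · exact Or.inl hsc
  right
  have hnt : Nontrivial H := by
    by_contra h
    rw [not_nontrivial_iff_subsingleton] at h
    apply hsc
    refine ⟨0, ?_⟩
    ext1 f
    exact Subsingleton.elim _ _
  obtain ⟨c₁, hc₁⟩ := spectrum.nonempty (N + K)
  by_cases hone : spectrum ℂ (N + K) = {c₁}
  · have h2 := Pool.Agent.W806.HI.main H N K c₁ hN hKc hone
    have h3 : IsCompactOperator (⇑(N + K - c₁ • (1 : H →L[ℂ] H))) := by
      have h4 : N + K - c₁ • (1 : H →L[ℂ] H) = (N - c₁ • (1 : H →L[ℂ] H)) + K := by abel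
      rw [h4]
      exact h2.add hKc
    refine hyp_shift c₁ (Pool.Agent.W577.HI.G1.main _ _ h3 ?_)
    rintro ⟨c, hc⟩
    apply hsc
    refine ⟨c + c₁, ?_⟩
    rw [add_smul, ← hc]
    abel
  · obtain ⟨c₂, hc₂, hne⟩ : ∃ c₂ ∈ spectrum ℂ (N + K), c₂ ≠ c₁ := by
      by_contra hcon
      push Not at hcon
      apply hone
      ext z
      exact ⟨fun hz => hcon z hz, fun hz => by rw [mem_singleton_iff.1 hz]; exact hc₁⟩
    exact hyp_of_locVec hL1 hL2 hc₁ hc₂ (Ne.symm hne)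

end Pool.Agent.Q130.TC
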