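import Pool.Agent.H352R3.SA.Defs
import Pool.Agent.Y271.RO.Stm

/-!
# Project TC (helper130): every trace class perturbation of a normal operator has hyperinvariant
subspaces. Part 1: measures with weak type Cauchy transforms on connected sets.

`Den g`: continuous compactly supported density `g ≥ 0`; `pot φ z = ∫ φ w (z - w)⁻¹`;
`(fL g, fK g)` solves `L = 1 - C(g conj K)`, `K = - C(g conj L)`; `Gam g` is the soft capacity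
(library `H352R3.SA`).
-/

set_option autoImplicit false

namespace Pool.Agent.Q130.TC

open MeasureTheory Set Metric Filter Topology
open scoped ComplexConjugate
open Pool.Agent.H352R3.SA (Den pot LK Gam)
open Pool.Agent.Y271.RO (ht Bd pk cost)

/-- the function `L` of the density `g` -/
noncomputable def fL (g : ℂ → ℝ) (z : ℂ) : ℂ := (LK g).1 z

/-- the function `K` of the density `g` -/
noncomputable def fK (g : ℂ → ℝ) (z : ℂ) : ℂ := (LK g).2 z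

/-- GAM: basic facts -/
def S_GAM : Prop :=
  ∀ g : ℂ → ℝ, Den g → Continuous (fL g) ∧ Continuous (fK g) ∧
    (∀ z, fL g z = 1 - pot (fun w => (g w : ℂ) * conj (fK g w)) z) ∧
    (∀ z, fK g z = - pot (fun w => (g w : ℂ) * conj (fL g w)) z) ∧
    (∀ z, ‖fK g z‖ ≤ ‖fL g z‖) ∧
    Gam g = (∫ z, g z * ‖fL g z‖ ^ 2) + ∫ z, g z * ‖fK g z‖ ^ 2 ∧
    ∫ z, (g z : ℂ) * conj (fL g z) = (Gam g : ℂ) ∧ 0 ≤ Gam g ∧ Gam g ≤ ∫ z, g z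

/-- PRD: product of two Cauchy potentials -/
def S_PRD : Prop :=
  ∀ φ ψ : ℂ → ℂ, Continuous φ → HasCompactSupport φ → Continuous ψ → HasCompactSupport ψ →
    ∀ z, pot φ z * pot ψ z = pot (fun w => φ w * pot ψ w + ψ w * pot φ w) z

/-- NUB: the bounded functions `b = (|L|² - |K|²) / L²` -/
def S_NUB : Prop :=
  ∀ g : ℂ → ℝ, Den g → ∃ b : ℂ → ℂ, Continuous b ∧ (∀ z, ‖b z‖ ≤ 1) ∧
    (∀ z, ‖pot (fun w => b w * g w) z‖ ≤ 1) ∧ ∫ z, b z * g z = (Gam g : ℂ)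

/-- VAR: lower bounds for the soft capacity -/
def S_VAR : Prop :=
  ∀ μ : ℂ → ℝ, Den μ → ∀ q : ℂ → ℂ, Continuous q → HasCompactSupport q →
    ∀ β : ℂ → ℝ, Continuous β → HasCompactSupport β → (∀ z, ‖q z‖ ^ 2 ≤ β z * μ z) →
    (∀ z, 0 ≤ β z) →
    2 * (∫ z, q z).re - (∫ z, β z) - ∫ z, ‖pot q z‖ ^ 2 * μ z ≤ Gam μ

/-- RAD: the capacity of a density in a disc -/
def S_RAD : Prop :=
  ∀ g : ℂ → ℝ, Den g → ∀ (c : ℂ) (r : ℝ), 0 < r → (∀ z, r < ‖z - c‖ → g z = 0) → Gam g ≤ 2 * r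

/-- MAX: almost maximizers of `Gam - κ · mass` among the densities below `ω` -/
def S_MAX : Prop :=
  ∀ (κ τ : ℝ) (ω : ℂ → ℝ), 0 < κ → 0 < τ → Den ω → ∃ h : ℂ → ℝ, Den h ∧ (∀ z, h z ≤ ω z) ∧
    ∀ g : ℂ → ℝ, Den g → (∀ z, g z ≤ ω z) → Gam g - κ * ∫ z, g z ≤ Gam h - κ * (∫ z, h z) + τ

/-- all cut-offs `χ h` have almost maximal capacity -/
def PN (κ τ : ℝ) (h : ℂ → ℝ) : Prop :=
  ∀ χ : ℂ → ℝ, Continuous χ → (∀ z, 0 ≤ χ z ∧ χ z ≤ 1) →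
    κ * ∫ z, χ z * h z ≤ Gam (fun z => χ z * h z) + τ

/-- MXN: almost maximizers have the property `PN` -/
def S_MXN : Prop :=
  ∀ (κ τ : ℝ) (ω h : ℂ → ℝ), 0 < κ → Den ω → Den h → (∀ z, h z ≤ ω z) →
    (∀ g : ℂ → ℝ, Den g → (∀ z, g z ≤ ω z) →
      Gam g - κ * ∫ z, g z ≤ Gam h - κ * (∫ z, h z) + τ) → PN κ τ h

/-- the Cauchy transform of the image under `φ` of the measure `k μ` -/
noncomputable def cau {S : Type} [MeasurableSpace S] (μ : Measure S) (φ k : S → ℂ) (z : ℂ) : ℂ :=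
  ∫ s, k s * (z - φ s)⁻¹ ∂μ

/-- CAU: basic facts about Cauchy transforms of finite measures -/
def S_CAU : Prop :=
  (∀ (S : Type) [MeasurableSpace S] (μ : Measure S) [SigmaFinite μ] (φ k : S → ℂ), Measurable φ →
    Integrable k μ → Measurable (cau μ φ k) ∧ LocallyIntegrable (cau μ φ k) ∧
      ∀ᵐ z : ℂ, Integrable (fun s => k s * (z - φ s)⁻¹) μ) ∧
  ∀ r : ℝ, 0 < r → ∃ M₀ : ℝ, 0 ≤ M₀ ∧ ∀ (S : Type) [MeasurableSpace S] (μ : Measure S)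
    [SigmaFinite μ] (φ k : S → ℂ), Measurable φ → Integrable k μ →
    ∀ (c : ℂ) (M : ℝ) (g : ℂ → ℂ), Bd g c r M →
      Integrable (fun z => g z * cau μ φ k z) ∧ ∫ z, ‖g z * cau μ φ k z‖ ≤ M₀ * M * ∫ s, ‖k s‖ ∂μ ∧
      ∫ z, g z * cau μ φ k z = ∫ s, k s * ht g (φ s) ∂μ

/-- the Cauchy transforms of finite measures are of weak type `(1,1)` with respect to `h dA`, with
constant `C` and additive error `δ` -/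
def WT (h : ℂ → ℝ) (C δ : ℝ) : Prop :=
  ∀ (S : Type) [MeasurableSpace S] (μ : Measure S) [SigmaFinite μ] (φ k : S → ℂ), Measurable φ →
    Integrable k μ → ∀ t : ℝ, 0 < t →
      ∫ z in {z | t ≤ ‖cau μ φ k z‖}, h z ≤ C * (∫ s, ‖k s‖ ∂μ) / t + δ

/-- DSC: the values of a Cauchy transform in a disc -/
def S_DSC : Prop :=
  ∀ (κ τ : ℝ) (h : ℂ → ℝ), 0 < κ → κ ≤ 1 → 0 ≤ τ → Den h → PN κ τ h →
    ∀ (S : Type) [MeasurableSpace S] (μ : Measure S) [SigmaFinite μ] (φ k : S → ℂ), Measurable φ →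
    Integrable k μ → ∀ w : ℂ, w ≠ 0 →
      κ * ∫ z in {z | ‖cau μ φ k z - w‖ ≤ κ / 4 * ‖w‖}, h z ≤
        2 * ((∫ s, ‖k s‖ ∂μ) / ‖w‖ + τ)

/-- WTM: weak type `(1,1)` from the property `PN` -/
def S_WTM : Prop :=
  ∀ κ : ℝ, 0 < κ → κ ≤ 1 → ∃ C : ℝ, 0 < C ∧ ∀ ω : ℂ → ℝ, Den ω → ∀ δ : ℝ, 0 < δ →
    ∃ τ₀ : ℝ, 0 < τ₀ ∧ ∀ (τ : ℝ) (h : ℂ → ℝ), 0 ≤ τ → τ ≤ τ₀ → Den h → (∀ z, h z ≤ ω z) →
      PN κ τ h → WT h C δ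

/-- NM: almost maximizers, all properties -/
def S_NM : Prop :=
  ∀ κ : ℝ, 0 < κ → κ ≤ 1 → ∃ C : ℝ, 0 < C ∧ ∀ ω : ℂ → ℝ, Den ω → ∀ δ : ℝ, 0 < δ →
    ∃ h : ℂ → ℝ, Den h ∧ (∀ z, h z ≤ ω z) ∧
      (∀ g : ℂ → ℝ, Den g → (∀ z, g z ≤ ω z) →
        Gam g - κ * ∫ z, g z ≤ Gam h - κ * (∫ z, h z) + δ) ∧
      WT h C δ ∧ ∀ (x : ℂ) (r : ℝ), 0 < r → ∫ z in ball x r, h z ≤ C * r + δ

/-- IMP: weak type gives a density of comparable mass and capacity almost equal to its mass -/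
def S_IMP : Prop :=
  ∀ C : ℝ, 0 < C → ∃ t : ℝ, 0 < t ∧ t ≤ 1 ∧ ∀ h : ℂ → ℝ, Den h → WT h C ((∫ z, h z) / 8) →
    ∃ g : ℂ → ℝ, Den g ∧ (∀ z, g z ≤ h z) ∧ t * ∫ z, h z ≤ ∫ z, g z ∧
      9 / 10 * ∫ z, g z ≤ Gam g

/-- the density `h (1 + |L|² + |K|²)` -/
noncomputable def hh (h : ℂ → ℝ) (z : ℂ) : ℝ := h z * (1 + ‖fL h z‖ ^ 2 + ‖fK h z‖ ^ 2)

/-- the measure `h (1 + |L|² + |K|²) dA` -/
noncomputable def HM (h : ℂ → ℝ) (A : Set ℂ) : ℝ := ∫ z in A, hh h z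

/-- the far part of `- K` -/
noncomputable def FK (h : ℂ → ℝ) (y : ℂ) (ρ : ℝ) (z : ℂ) : ℂ :=
  ∫ w in {w | ρ ≤ ‖w - y‖}, (h w : ℂ) * conj (fL h w) * (z - w)⁻¹

/-- the far part of `1 - L` -/
noncomputable def FL (h : ℂ → ℝ) (y : ℂ) (ρ : ℝ) (z : ℂ) : ℂ :=
  ∫ w in {w | ρ ≤ ‖w - y‖}, (h w : ℂ) * conj (fK h w) * (z - w)⁻¹

/-- cut-off function, one on the disc of radius `r`, zero off the disc of radius `2 r` -/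
noncomputable def chi (y : ℂ) (r : ℝ) (z : ℂ) : ℝ := max 0 (min 1 (2 - ‖z - y‖ / r))

/-- FLD: the field near `y` -/
def S_FLD : Prop :=
  ∃ C : ℝ, 0 < C ∧ ∀ (h : ℂ → ℝ) (y : ℂ) (s δ : ℝ), Den h → 0 < s → 0 ≤ δ →
    (∀ ρ, s < ρ → HM h (ball y ρ) ≤ δ * ρ) →
    ∀ ρ, s / 2 ≤ ρ → ρ ≤ 8 * s → ∀ z, ‖z - y‖ ≤ 25 * s →
      ‖fK h z + FK h y ρ y + ∫ w in ball y (50 * s), (h w : ℂ) * conj (fL h w) * (z - w)⁻¹‖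
        ≤ C * δ ∧
      ‖fL h z - 1 + FL h y ρ y + ∫ w in ball y (50 * s), (h w : ℂ) * conj (fK h w) * (z - w)⁻¹‖
        ≤ C * δ

/-- LOC: replacing a density in a disc -/
def S_LOC : Prop :=
  ∃ C : ℝ, 0 < C ∧ ∀ (h : ℂ → ℝ) (y : ℂ) (r δ₁ δ₂ : ℝ), Den h → 0 < r → 0 ≤ δ₁ → δ₁ ≤ 1 →
    0 ≤ δ₂ → δ₂ ≤ 1 → (∀ ρ, 4 * r ≤ ρ → HM h (ball y ρ) ≤ δ₁ * ρ) →
    ‖FK h y (4 * r) y‖ ≤ δ₂ → ‖FL h y (4 * r) y‖ ≤ δ₂ →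
    ∀ g : ℂ → ℝ, Den g → (∀ z, g z ≠ 0 → ‖z - y‖ ≤ r / 2) → ∫ z, g z ≤ 4 * r →
      Gam h + Gam g - C * (δ₁ + δ₂) * (∫ z, g z) - C * HM h (ball y (4 * r)) ≤
        Gam (fun z => (1 - chi y r z) * h z + g z)

/-- the density `1 / ε` near the finite set `Y` -/
noncomputable def om (Y : Finset ℂ) (ε : ℝ) (z : ℂ) : ℝ :=
  ε⁻¹ * max 0 (min 1 (2 - infDist z (Y : Set ℂ) / ε))

/-- BMP: one bump -/
def S_BMP : Prop :=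
  ∃ c : ℝ, 0 < c ∧ ∀ (y : ℂ) (ε : ℝ), 0 < ε → ∃ g : ℂ → ℝ, Den g ∧ (∀ z, g z ≤ om {y} ε z) ∧
    (∀ z, g z ≠ 0 → ‖z - y‖ ≤ ε) ∧ c * ε ≤ ∫ z, g z ∧ ∫ z, g z ≤ ε ∧ 9 / 10 * ∫ z, g z ≤ Gam g

/-- any two points of `Y` are joined by a chain with steps at most `ε` -/
def EC (ε : ℝ) (Y : Finset ℂ) : Prop :=
  ∀ a ∈ Y, ∀ b ∈ Y, ∃ (n : ℕ) (z : ℕ → ℂ), z 0 = a ∧ z n = b ∧ (∀ i ≤ n, z i ∈ Y) ∧
    ∀ i < n, ‖z (i + 1) - z i‖ ≤ ε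

/-- GEO: Vitali covering and a chain through the centres -/
def S_GEO : Prop :=
  ∀ (ε : ℝ) (Y : Finset ℂ) (s : ℂ → ℝ), 0 < ε → EC ε Y → (∀ y ∈ Y, ε ≤ s y) →
    ∀ a ∈ Y, ∀ b ∈ Y, ∃ (J : Finset ℂ) (n : ℕ) (z : ℕ → ℂ), J ⊆ Y ∧
      (∀ y ∈ J, ∀ y' ∈ J, y ≠ y' → Disjoint (ball y (s y)) (ball y' (s y'))) ∧
      (∀ i ≤ n, z i ∈ J) ∧ (∀ i ≤ n, ∀ j ≤ n, z i = z j → i = j) ∧
      ‖z 0 - a‖ ≤ 2 * s (z 0) ∧ ‖z n - b‖ ≤ 2 * s (z n) ∧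
      ∀ i < n, ‖z (i + 1) - z i‖ ≤ 3 * (s (z i) + s (z (i + 1)))

/-- CMP: connected pieces of given size -/
def S_CMP : Prop :=
  ∀ (ε R : ℝ) (Y : Finset ℂ) (y b : ℂ), 0 < ε → 0 < R → EC ε Y → y ∈ Y → b ∈ Y → R ≤ ‖b - y‖ →
    ∃ Y' : Finset ℂ, Y' ⊆ Y ∧ y ∈ Y' ∧ EC ε Y' ∧ (∀ z ∈ Y', ‖z - y‖ ≤ R) ∧
      ∃ z ∈ Y', R - ε ≤ ‖z - y‖

/-- the length of the polygon with the vertices `z 0, …, z n` -/
noncomputable def plen (z : ℕ → ℂ) (n : ℕ) : ℝ := ∑ i ∈ Finset.range n, ‖z (i + 1) - z i‖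

/-- `w` is at distance at most `ρ` from the polygon -/
def NearPol (z : ℕ → ℂ) (n : ℕ) (ρ : ℝ) (w : ℂ) : Prop :=
  ∃ i < n, ∃ t : ℝ, 0 ≤ t ∧ t ≤ 1 ∧ ‖w - (z i + t * (z (i + 1) - z i))‖ ≤ ρ

/-- PG: capacity of densities near polygons of length at most `C₁ d`, `d` = distance of the end
points -/
def S_PG : Prop :=
  ∀ C₁ : ℝ, 0 < C₁ → ∃ κ c : ℝ, 0 < κ ∧ κ ≤ 1 ∧ 0 < c ∧
    ∀ (z : ℕ → ℂ) (n : ℕ) (d : ℝ), 0 < d → d ≤ ‖z n - z 0‖ → plen z n ≤ C₁ * d →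
    ∀ ρ : ℝ, 0 < ρ → ∃ g : ℂ → ℝ, Den g ∧ (∀ w, g w ≠ 0 → NearPol z n ρ w) ∧
      κ * (∫ w, g w) + c * d ≤ Gam g

/-- PG2: weak type densities near polygons -/
def S_PG2 : Prop :=
  ∀ C₁ : ℝ, 0 < C₁ → ∃ C c : ℝ, 0 < C ∧ 0 < c ∧
    ∀ (z : ℕ → ℂ) (n : ℕ) (d : ℝ), 0 < d → d ≤ ‖z n - z 0‖ → plen z n ≤ C₁ * d →
    ∀ ρ δ : ℝ, 0 < ρ → 0 < δ → ∃ η : ℂ → ℝ, Den η ∧ (∀ w, η w ≠ 0 → NearPol z n ρ w) ∧
      c * d ≤ ∫ w, η w ∧ WT η C δ ∧ ∀ (x : ℂ) (r : ℝ), 0 < r → ∫ w in ball x r, η w ≤ C * r + δ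

/-- ML: connected sets carry densities of large mass and capacity -/
def S_ML : Prop :=
  ∃ c : ℝ, 0 < c ∧ ∀ (ε : ℝ) (Y : Finset ℂ), 0 < ε → EC ε Y → ∀ a ∈ Y, ∀ b ∈ Y,
    ∃ g : ℂ → ℝ, Den g ∧ (∀ z, g z ≤ om Y ε z) ∧ c * (‖a - b‖ + ε) ≤ ∫ z, g z ∧
      9 / 10 * ∫ z, g z ≤ Gam g

/-- ML2: connected sets carry densities of large mass with weak type Cauchy transforms -/
def S_ML2 : Prop :=
  ∃ C c : ℝ, 0 < C ∧ 0 < c ∧ ∀ (ε : ℝ) (Y : Finset ℂ), 0 < ε → EC ε Y → ∀ a ∈ Y, ∀ b ∈ Y,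
    ∀ δ : ℝ, 0 < δ → ∃ η : ℂ → ℝ, Den η ∧ (∀ z, η z ≤ om Y ε z) ∧ c * ‖a - b‖ ≤ (∫ z, η z) + δ ∧
      WT η C δ

end Pool.Agent.Q130.TC
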