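import Pool.Agent.Q63.TC.NUB
import Pool.Agent.Q275.TC.VAR
import Pool.Agent.Q216.TC.Cau
import Pool.Agent.Q80.TC.DSC
import Pool.Agent.Q80.TC.WTM
import Pool.Agent.Q63.TC.IMP
import Pool.Agent.Q275.TC.FLD
import Pool.Agent.Q216.TC.Bmp
import Pool.Agent.Q216.TC.Geo
import Pool.Agent.Q89.TC.PGF
import Pool.Agent.Q237.TC.MIN
import Pool.Agent.Q237.TC.LW
import Pool.Agent.Q272.TC.VK
import Pool.Agent.Q144.TC.RED
import Pool.Agent.Q144.TC.SM
import Pool.Agent.Q144.TC.MZ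
import Pool.Agent.Q177.TC.LOC
import Pool.Agent.Q275.TC.CMA
import Pool.Agent.Q169.TC.CSB
import Pool.Agent.Q169.TC.CSA
import Pool.Agent.Q216.TC.Srk
import Pool.Agent.Q88.TC.PLY
import Pool.Agent.Q88.TC.LNK
import Pool.Agent.Q130.TC.Ops
import Pool.Agent.Q130.TC.Ml
import Pool.Agent.Q130.TC.Bas
import Pool.Agent.Q130.TC.Gam

/-!
# Project TC (helper130): the assembly
-/

set_option autoImplicit false

namespace Pool.Agent.Q130.TC

open Pool.Agent.Y283.NK (Repr HasHyp LocVec)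

theorem wNUB : S_NUB := Pool.Agent.Q63.TC.nub gam Pool.Agent.Q63.TC.prd

theorem wVAR : S_VAR := Pool.Agent.Q275.TC.var gam

theorem wCAU : S_CAU := Pool.Agent.Q216.TC.cau_main

theorem wRAD : S_RAD := Pool.Agent.Q275.TC.rad

theorem wNM : S_NM := nm_main (Q80.TC.wtm (Q80.TC.dsc wNUB wCAU) wCAU) wRAD

theorem wPG : S_PG := pg Pool.Agent.Q89.TC.pgf wVAR

theorem wLOC : S_LOC := Pool.Agent.Q177.TC.loc gam wVAR

theorem wML2 : S_ML2 :=
  ml2 wNM (ml wCAU wNM wRAD (Pool.Agent.Q63.TC.imp gam wVAR wCAU) wLOC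
    (Pool.Agent.Q275.TC.fld gam) (Pool.Agent.Q216.TC.bmp wVAR) Pool.Agent.Q216.TC.geo
    Pool.Agent.Q216.TC.cmp (pg2 wNM wPG))

theorem wLNK : S_LNK := Pool.Agent.Q88.TC.lnk wML2 Pool.Agent.Q88.TC.ply

theorem wMZ : S_MZ := Pool.Agent.Q144.TC.MZ.mz wCAU

theorem wWTI : S_WTI := Pool.Agent.Q144.TC.MZ.wti wCAU

theorem wCSA : S_CSA :=
  Pool.Agent.Q169.TC.csa Pool.Agent.Q144.TC.SM.sm_main (Pool.Agent.Q275.TC.cma wCAU wMZ)
    (Pool.Agent.Q237.TC.min_main wCAU wMZ) Pool.Agent.Q272.TC.VK.vk Pool.Agent.Q144.TC.RED.dns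

theorem wCHN : S_CHN :=
  fun _ _ _ _ _ _ _ _ _ hN hK a r hr hE =>
    chain2 wCSA (Pool.Agent.Q169.TC.csb Pool.Agent.Q144.TC.SM.sm_main)
      Pool.Agent.Q216.TC.srk wLNK wWTI
      (Pool.Agent.Q237.TC.lw wCAU Pool.Agent.Q144.TC.SM.sm_main) Pool.Agent.Q144.TC.RED.red
      hN hK a r hr hE

/-- **every trace class perturbation of a normal operator** -/
theorem main (H : Type) [NormedAddCommGroup H] [InnerProductSpace ℂ H] [CompleteSpace H]
    [TopologicalSpace.SeparableSpace H] (N K : H →L[ℂ] H) (hN : IsStarNormal N) (u v : ℕ → H)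
    (hK : Repr K u v) :
    ((∃ c : ℂ, N + K = c • 1) ∨ HasHyp (N + K)) ∧ LocVec (N + K) ∧
      LocVec (ContinuousLinearMap.adjoint (N + K)) :=
  main2 wCHN H N K hN u v hK

end Pool.Agent.Q130.TC
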