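import Pool.Agent.Q130.TC.Bas

/-!
# Project TC (helper130): the measure `HM`, the local step, the counting inequality
-/

set_option autoImplicit false

namespace Pool.Agent.Q130.TC

open MeasureTheory Set Metric Filter Topology
open scoped ComplexConjugate
open Pool.Agent.H352R3.SA (Den pot LK Gam cop)

section HMsec

variable {h : ℂ → ℝ}

theorem hh_nonneg (hd : Den h) (z : ℂ) : 0 ≤ hh h z :=
  mul_nonneg (hd.nonneg z) (by positivity)

theorem hh_cont (hd : Den h) : Continuous (hh h) := by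
  unfold hh
  exact hd.cont.mul ((continuous_const.add ((fL_cont h).norm.pow 2)).add ((fK_cont h).norm.pow 2))

theorem hh_supp (hd : Den h) : HasCompactSupport (hh h) := by
  unfold hh
  exact hd.supp.mul_right

theorem hh_int (hd : Den h) : Integrable (hh h) :=
  (hh_cont hd).integrable_of_hasCompactSupport (hh_supp hd)

theorem HM_nonneg (hd : Den h) (A : Set ℂ) : 0 ≤ HM h A :=
  integral_nonneg fun z => hh_nonneg hd z

theorem HM_mono (hd : Den h) {A B : Set ℂ} (hAB : A ⊆ B) : HM h A ≤ HM h B :=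
  setIntegral_mono_set (hh_int hd).integrableOn
    (Eventually.of_forall fun z => hh_nonneg hd z) hAB.eventuallyLE

theorem HM_le_univ (hd : Den h) (A : Set ℂ) : HM h A ≤ HM h univ := HM_mono hd (subset_univ A)

theorem HM_univ (hd : Den h) : HM h univ ≤ 2 * ∫ z, h z := by
  have hg := gam h hd
  have e1 : HM h univ = (∫ z, h z) + Gam h := by
    unfold HM
    rw [Measure.restrict_univ, hg.2.2.2.2.2.1]
    have i1 : Integrable (fun z => h z) := den_integrable hd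
    have i2 : Integrable (fun z => h z * ‖fL h z‖ ^ 2) := den_sq_int hd (fL_cont h)
    have i3 : Integrable (fun z => h z * ‖fK h z‖ ^ 2) := den_sq_int hd (fK_cont h)
    have e0 : ∫ z, hh h z = ∫ z, (h z + (h z * ‖fL h z‖ ^ 2 + h z * ‖fK h z‖ ^ 2)) := by
      refine integral_congr_ae (Eventually.of_forall fun z => ?_)
      show h z * (1 + ‖fL h z‖ ^ 2 + ‖fK h z‖ ^ 2) =
        h z + (h z * ‖fL h z‖ ^ 2 + h z * ‖fK h z‖ ^ 2)
      ring
    have e01 : ∫ z, (h z + (h z * ‖fL h z‖ ^ 2 + h z * ‖fK h z‖ ^ 2)) =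
        (∫ z, h z) + ∫ z, (h z * ‖fL h z‖ ^ 2 + h z * ‖fK h z‖ ^ 2) := integral_add i1 (i2.add i3)
    have e02 : ∫ z, (h z * ‖fL h z‖ ^ 2 + h z * ‖fK h z‖ ^ 2) =
        (∫ z, h z * ‖fL h z‖ ^ 2) + ∫ z, h z * ‖fK h z‖ ^ 2 := integral_add i2 i3
    rw [e0, e01, e02]
  have e2 := hg.2.2.2.2.2.2.2.2
  linarith

/-- the sum of the values of `HM` on disjoint balls -/
theorem HM_sum (hd : Den h) (J : Finset ℂ) (r : ℂ → ℝ)
    (hdis : ∀ y ∈ J, ∀ y' ∈ J, y ≠ y' → Disjoint (ball y (r y)) (ball y' (r y'))) :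
    ∑ y ∈ J, HM h (ball y (r y)) ≤ HM h univ := by
  have e1 : HM h (⋃ y ∈ J, ball y (r y)) = ∑ y ∈ J, HM h (ball y (r y)) := by
    unfold HM
    exact integral_biUnion_finset J (fun y _ => measurableSet_ball)
      (fun y hy y' hy' hne => hdis y hy y' hy' hne) fun y _ => (hh_int hd).integrableOn
  rw [← e1]
  exact HM_le_univ hd _

theorem le_hh_L (hd : Den h) (z : ℂ) : ‖(h z : ℂ) * conj (fL h z)‖ ≤ hh h z := by
  rw [norm_mul, RCLike.norm_conj, Complex.norm_real, Real.norm_eq_abs, abs_of_nonneg (hd.nonneg z)]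
  unfold hh
  refine mul_le_mul_of_nonneg_left ?_ (hd.nonneg z)
  nlinarith [sq_nonneg (‖fL h z‖ - 1), sq_nonneg (‖fL h z‖), sq_nonneg (‖fK h z‖)]

theorem le_hh_K (hd : Den h) (z : ℂ) : ‖(h z : ℂ) * conj (fK h z)‖ ≤ hh h z := by
  rw [norm_mul, RCLike.norm_conj, Complex.norm_real, Real.norm_eq_abs, abs_of_nonneg (hd.nonneg z)]
  unfold hh
  refine mul_le_mul_of_nonneg_left ?_ (hd.nonneg z)
  nlinarith [sq_nonneg (‖fK h z‖ - 1), sq_nonneg (‖fL h z‖), sq_nonneg (‖fK h z‖)]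

theorem far_bound (hd : Den h) {q : ℂ → ℂ} (hq : ∀ z, ‖q z‖ ≤ hh h z)
    (y : ℂ) {ρ : ℝ} (hρ : 0 < ρ) :
    ‖∫ w in {w | ρ ≤ ‖w - y‖}, q w * (y - w)⁻¹‖ ≤ HM h univ / ρ := by
  have hms : MeasurableSet {w : ℂ | ρ ≤ ‖w - y‖} := by
    exact measurableSet_le measurable_const (by fun_prop)
  have e1 : ‖∫ w in {w | ρ ≤ ‖w - y‖}, q w * (y - w)⁻¹‖ ≤
      ∫ w in {w | ρ ≤ ‖w - y‖}, hh h w * ρ⁻¹ := by
    refine norm_integral_le_of_norm_le ((hh_int hd).integrableOn.mul_const _) ?_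
    refine (ae_restrict_mem hms).mono fun w hw => ?_
    rw [norm_mul, norm_inv, norm_sub_rev]
    exact mul_le_mul (hq w) (inv_anti₀ hρ hw) (by positivity) (hh_nonneg hd w)
  refine e1.trans ?_
  rw [integral_mul_const, div_eq_mul_inv]
  exact mul_le_mul_of_nonneg_right (HM_le_univ hd _) (by positivity)

theorem FK_bound (hd : Den h) (y : ℂ) {ρ : ℝ} (hρ : 0 < ρ) : ‖FK h y ρ y‖ ≤ HM h univ / ρ :=
  far_bound hd (le_hh_L hd) y hρ

theorem FL_bound (hd : Den h) (y : ℂ) {ρ : ℝ} (hρ : 0 < ρ) : ‖FL h y ρ y‖ ≤ HM h univ / ρ :=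
  far_bound hd (le_hh_K hd) y hρ

end HMsec

/-- the local step -/
theorem step {C : ℝ} {h ω : ℂ → ℝ} {δN : ℝ} (hd : Den h) (hω : ∀ z, h z ≤ ω z)
    (hmax : ∀ g : ℂ → ℝ, Den g → (∀ z, g z ≤ ω z) →
      Gam g - 1 / 2 * ∫ z, g z ≤ Gam h - 1 / 2 * (∫ z, h z) + δN)
    {y : ℂ} {r δ₁ δ₂ : ℝ} (hr : 0 < r) (hδ : C * (δ₁ + δ₂) ≤ 1 / 10)
    {g : ℂ → ℝ} (hg : Den g) (hgω : ∀ z, g z ≤ ω z) (hgs : ∀ z, g z ≠ 0 → ‖z - y‖ ≤ r / 2)
    (hgG : 9 / 10 * ∫ z, g z ≤ Gam g)
    (hLOC : Gam h + Gam g - C * (δ₁ + δ₂) * (∫ z, g z) - C * HM h (ball y (4 * r)) ≤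
        Gam (fun z => (1 - chi y r z) * h z + g z)) :
    3 / 10 * ∫ z, g z ≤ C * HM h (ball y (4 * r)) + δN := by
  have hχ : Den (fun z => (1 - chi y r z) * h z) :=
    den_mul hd (continuous_const.sub (chi_cont y r)) fun z => by linarith [chi_le_one y r z]
  have hμ : Den (fun z => (1 - chi y r z) * h z + g z) :=
    ⟨hχ.cont.add hg.cont, hχ.supp.add hg.supp, fun z => add_nonneg (hχ.nonneg z) (hg.nonneg z)⟩
  have hle : ∀ z, (1 - chi y r z) * h z + g z ≤ ω z := by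
    intro z
    by_cases hz : ‖z - y‖ ≤ r
    · rw [chi_one hr hz]
      have := hgω z
      linarith
    · have hg0 : g z = 0 := by
        by_contra h0
        exact hz ((hgs z h0).trans (by linarith))
      rw [hg0, add_zero]
      have e1 := hω z
      have e2 := hd.nonneg z
      have e3 := chi_nonneg y r z
      nlinarith
  have e1 := hmax _ hμ hle
  have e2 : ∫ z, ((1 - chi y r z) * h z + g z) = (∫ z, (1 - chi y r z) * h z) + ∫ z, g z :=
    integral_add (den_integrable hχ) (den_integrable hg)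
  have e3 : ∫ z, (1 - chi y r z) * h z ≤ ∫ z, h z := by
    refine integral_mono (den_integrable hχ) (den_integrable hd) fun z => ?_
    have e2 := hd.nonneg z
    have e3 := chi_nonneg y r z
    show (1 - chi y r z) * h z ≤ h z
    nlinarith
  have e4 : 0 ≤ ∫ z, g z := integral_nonneg hg.nonneg
  have e5 : C * (δ₁ + δ₂) * (∫ z, g z) ≤ 1 / 10 * ∫ z, g z := mul_le_mul_of_nonneg_right hδ e4
  rw [e2] at e1
  linarith

theorem wt_set {η : ℂ → ℝ} {C δ : ℝ} (hC : 0 ≤ C) (hWT : WT η C δ) {h : ℂ → ℝ} (hd : Den h)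
    {q : ℂ → ℂ} (hq : ∀ z, ‖q z‖ ≤ hh h z) (hqc : Continuous q) (B : Set ℂ) (hB : MeasurableSet B)
    {t : ℝ} (ht : 0 < t) :
    ∫ z in {z | t ≤ ‖∫ w in B, q w * (z - w)⁻¹‖}, η z ≤ C * HM h B / t + δ := by
  have hqi : Integrable q := by
    refine Integrable.mono' (hh_int hd) hqc.aestronglyMeasurable (Eventually.of_forall hq)
  have e1 := hWT ℂ volume id (B.indicator q) measurable_id (hqi.indicator hB) t ht
  have e2 : ∀ z, cau volume id (B.indicator q) z = ∫ w in B, q w * (z - w)⁻¹ := by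
    intro z
    unfold cau
    rw [← integral_indicator hB]
    refine integral_congr_ae (Eventually.of_forall fun w => ?_)
    by_cases hw : w ∈ B
    · simp [indicator_of_mem hw]
    · simp [indicator_of_notMem hw]
  simp only [e2] at e1
  refine e1.trans ?_
  have e3 : ∫ s, ‖B.indicator q s‖ ≤ HM h B := by
    unfold HM
    rw [← integral_indicator hB]
    refine integral_mono (hqi.indicator hB).norm ((hh_int hd).indicator hB) fun z => ?_
    by_cases hz : z ∈ B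
    · simp only [indicator_of_mem hz]; exact hq z
    · simp [indicator_of_notMem hz]
  have e4 : C * (∫ s, ‖B.indicator q s‖) / t ≤ C * HM h B / t := by gcongr
  linarith

end Pool.Agent.Q130.TC
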