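import Pool.Agent.Q130.TC.Stm
import Pool.Agent.Y283.NK.Stm2
import Pool.Agent.Y271.RO.Stm

/-!
# Project TC (helper130): every trace class perturbation of a normal operator has hyperinvariant
subspaces. Part 2: operators.

`N` is the multiplication by `φ` on `L²(μ)`, `K f = ∑ ⟪v j, f⟫ u j` (`Repr K u v`),
`ct φ g f z = ∫ conj g f (z - φ)⁻¹ dμ`, `ht g l = ∫ g z (z - l)⁻¹`, `mv φ x h = h(φ) x`.
-/

set_option autoImplicit false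

namespace Pool.Agent.Q130.TC

open MeasureTheory Set Metric Filter Topology
open scoped InnerProductSpace ENNReal NNReal ComplexConjugate
open Pool.Agent.H352R3.SA (Den)
open Pool.Agent.Y283.NK (ct IsMul HasHyp Repr fr)
open Pool.Agent.Y271.RO (ht Bd mv IsChain HasCh Ess Cut pk cost pw fd Cheap)

/-- MZ: vector valued weak type estimates (random signs) -/
def S_MZ : Prop :=
  ∃ C₀ : ℝ, 1 ≤ C₀ ∧ ∀ (h : ℂ → ℝ) (C δ : ℝ), Integrable h → (∀ z, 0 ≤ h z) → 0 ≤ C → 0 ≤ δ →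
    WT h C δ → ∀ (ι : Type) [Fintype ι] (S : Type) [MeasurableSpace S] (μ : Measure S)
      [SigmaFinite μ] (φ : S → ℂ) (k : ι → S → ℂ), Measurable φ → (∀ i, Integrable (k i) μ) →
      ∀ t : ℝ, 0 < t →
        ∫ z in {z | t ≤ √(∑ i, ‖cau μ φ (k i) z‖ ^ 2)}, h z ≤
          C₀ * (C * (∫ s, √(∑ i, ‖k i s‖ ^ 2) ∂μ) / t + δ)

/-- WTI: area measure -/
def S_WTI : Prop :=
  ∀ ρ : ℝ, 0 < ρ → ∃ C : ℝ, 0 < C ∧ ∀ (a : ℂ) (G : Set ℂ), MeasurableSet G → G ⊆ ball a ρ →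
    WT (G.indicator fun _ => (1:ℝ)) C 0

/-- the norm of the first `m` coordinates -/
noncomputable def nm (m : ℕ) (c : ℕ → ℂ) : ℝ := √(∑ i ∈ Finset.range m, ‖c i‖ ^ 2)

section

variable {S : Type} [MeasurableSpace S] {μ : Measure S}

/-- the vector `(1 - F(z)) c`, `F(z)` of size `m` -/
noncomputable def Am (φ : S → ℂ) (u v : ℕ → Lp ℂ 2 μ) (m : ℕ) (z : ℂ) (c : ℕ → ℂ) (i : ℕ) : ℂ :=
  c i - ∑ j ∈ Finset.range m, ct φ (v i) (u j) z * c j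

/-- the smallest singular value of `1 - F(z)` -/
noncomputable def sm (φ : S → ℂ) (u v : ℕ → Lp ℂ 2 μ) (m : ℕ) (z : ℂ) : ℝ :=
  sInf {t | ∃ c : ℕ → ℂ, nm m c = 1 ∧ nm m (Am φ u v m z c) = t}

/-- the vectors `Y((z - a)^k g c) = ∑ ht ((z - a)^k g c_j) (φ) u_j` -/
noncomputable def VV (φ : S → ℂ) (u : ℕ → Lp ℂ 2 μ) (m : ℕ) (a : ℂ) (g : ℂ → ℝ)
    (c : ℕ → ℂ → ℂ) (k : ℕ) : Lp ℂ 2 μ :=
  ∑ j ∈ Finset.range m, mv φ (u j) (ht fun z => (z - a) ^ k * ((g z : ℂ) * c j z))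

end

/-- SM: the smallest singular value, approximate kernel vectors, the inverse -/
def S_SM : Prop :=
  ∀ (S : Type) [MeasurableSpace S] (μ : Measure S) [SigmaFinite μ] (φ : S → ℂ), Measurable φ →
    ∀ (u v : ℕ → Lp ℂ 2 μ) (m : ℕ), 1 ≤ m →
      Measurable (sm φ u v m) ∧ (∀ z, 0 ≤ sm φ u v m z) ∧
      (∀ δ : ℝ, 0 < δ → ∃ c : ℕ → ℂ → ℂ, (∀ j, Measurable (c j)) ∧
        ∀ z, nm m (fun j => c j z) = 1 ∧ nm m (Am φ u v m z fun j => c j z) ≤ sm φ u v m z + δ) ∧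
      ∀ b : ℕ → ℂ → ℂ, (∀ j, Measurable (b j)) → ∃ h : ℕ → ℂ → ℂ, (∀ j, Measurable (h j)) ∧
        ∀ z, (∀ i < m, Am φ u v m z (fun j => h j z) i = (sm φ u v m z : ℂ) * b i z) ∧
          nm m (fun j => h j z) ≤ nm m (fun j => b j z)

/-- `w` is the limit of the smallest singular values -/
structure IsW {S : Type} [MeasurableSpace S] {μ : Measure S} (φ : S → ℂ) (u v : ℕ → Lp ℂ 2 μ)
    (w : ℂ → ℝ) : Prop where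
  meas : Measurable w
  nonneg : ∀ z, 0 ≤ w z
  loc : LocallyIntegrable w
  lim : ∀ R : ℝ, Tendsto (fun m : ℕ => ∫⁻ z in ball (0:ℂ) R, ‖sm φ u v m z - w z‖ₑ) atTop (𝓝 0)

/-- LW: the limit exists -/
def S_LW : Prop :=
  ∀ (S : Type) [MeasurableSpace S] (μ : Measure S) [SigmaFinite μ] (φ : S → ℂ), Measurable φ →
    ∀ (u v : ℕ → Lp ℂ 2 μ), Summable (fun j => ‖u j‖ ^ 2) → Summable (fun j => ‖v j‖ ^ 2) →
      ∃ w : ℂ → ℝ, IsW φ u v w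

/-- MIN: densities for which the vector `VV` is bounded (element of minimal norm) -/
def S_MIN : Prop :=
  ∃ C₁ : ℝ, 0 < C₁ ∧ ∀ (S : Type) [MeasurableSpace S] (μ : Measure S) [SigmaFinite μ] (φ : S → ℂ)
    (N : Lp ℂ 2 μ →L[ℂ] Lp ℂ 2 μ), IsMul φ N → ∀ (u : ℕ → Lp ℂ 2 μ) (m : ℕ) (U₀ : ℝ), 0 ≤ U₀ →
    ∑ j ∈ Finset.range m, ‖u j‖ ^ 2 ≤ U₀ ^ 2 → ∀ (h : ℂ → ℝ) (C δ ρ B : ℝ) (a : ℂ),
    Measurable h → (∀ z, 0 ≤ h z ∧ h z ≤ B) → (∀ z, z ∉ ball a ρ → h z = 0) → 0 < C → 0 ≤ δ →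
    WT h C δ → C₁ * δ ≤ ∫ z, h z → ∀ c : ℕ → ℂ → ℂ, (∀ j, Measurable (c j)) →
    (∀ z, nm m (fun j => c j z) ≤ 1) → ∃ g : ℂ → ℝ, Measurable g ∧
      (∀ z, 0 ≤ g z ∧ g z ≤ h z) ∧ (∫ z, h z) / 2 ≤ ∫ z, g z ∧
      ‖VV φ u m a g c 0‖ ≤ C₁ * C * U₀ + 1

/-- VK: the vectors `VV` are an approximate chain -/
def S_VK : Prop :=
  ∀ (S : Type) [MeasurableSpace S] (μ : Measure S) [SigmaFinite μ] (φ : S → ℂ)
    (N : Lp ℂ 2 μ →L[ℂ] Lp ℂ 2 μ), IsMul φ N → ∀ (u v : ℕ → Lp ℂ 2 μ) (m : ℕ) (U₀ : ℝ), 0 ≤ U₀ →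
    ∑ j ∈ Finset.range m, ‖u j‖ ^ 2 ≤ U₀ ^ 2 → ∀ (g : ℂ → ℝ) (ρ B : ℝ) (a : ℂ), 0 < ρ →
    Measurable g → (∀ z, 0 ≤ g z ∧ g z ≤ B) → (∀ z, z ∉ ball a ρ → g z = 0) →
    ∀ c : ℕ → ℂ → ℂ, (∀ j, Measurable (c j)) → (∀ z, nm m (fun j => c j z) ≤ 1) →
      (∀ k, ‖VV φ u m a g c k‖ ≤
        (‖VV φ u m a g c 0‖ + 2 * (∫ z, g z) * U₀ / ρ) * (4 * ρ) ^ k) ∧
      (∀ k, N (VV φ u m a g c k) - a • VV φ u m a g c k = VV φ u m a g c (k + 1) -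
        ∑ j ∈ Finset.range m, (∫ z, (z - a) ^ k * ((g z : ℂ) * c j z)) • u j) ∧
      (∀ k, ‖(N + fr u v m) (VV φ u m a g c k) - a • VV φ u m a g c k - VV φ u m a g c (k + 1)‖ ≤
        U₀ * ρ ^ k * ∫ z, g z * nm m (Am φ u v m z fun j => c j z)) ∧
      ∀ X : Lp ℂ 2 μ, ⟪X, VV φ u m a g c 0⟫_ℂ =
        ∫ z, (g z : ℂ) * ∑ j ∈ Finset.range m, c j z * ct φ X (u j) z

/-- the representation of `K` is reduced -/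
def Inj {H : Type} [NormedAddCommGroup H] [InnerProductSpace ℂ H] (u v : ℕ → H) : Prop :=
  ∀ c : ℕ → ℂ, Summable (fun j => ‖c j‖ ^ 2) → HasSum (fun j => c j • u j) 0 →
    ∀ j, c j = 0 ∨ v j = 0

/-- RED: every trace class operator has a reduced representation -/
def S_RED : Prop :=
  ∀ (H : Type) [NormedAddCommGroup H] [InnerProductSpace ℂ H] [CompleteSpace H]
    (K : H →L[ℂ] H) (u v : ℕ → H), Repr K u v → ∃ u' v' : ℕ → H, Repr K u' v' ∧ Inj u' v'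

/-- DNS: coordinates are approximated by inner products -/
def S_DNS : Prop :=
  ∀ (H : Type) [NormedAddCommGroup H] [InnerProductSpace ℂ H] [CompleteSpace H] (u v : ℕ → H),
    Summable (fun j => ‖u j‖ ^ 2) → Inj u v → ∀ j, v j ≠ 0 → ∀ ε : ℝ, 0 < ε → ∃ x : H,
      ∀ (m : ℕ) (y : ℕ → ℂ), j < m →
        ‖y j - ⟪x, ∑ i ∈ Finset.range m, y i • u i⟫_ℂ‖ ≤ ε * nm m y

/-- CMA: directions with a component of size at least `θ` on most of the density -/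
def S_CMA : Prop :=
  ∀ (S : Type) [MeasurableSpace S] (μ : Measure S) [SigmaFinite μ] (φ : S → ℂ), Measurable φ →
    ∀ (u v : ℕ → Lp ℂ 2 μ), Summable (fun j => ‖u j‖ ^ 2) → Summable (fun j => ‖v j‖ ^ 2) →
    ∀ C c₀ : ℝ, 0 < C → 0 < c₀ → ∃ (J : ℕ) (θ δ₀ : ℝ), 0 < θ ∧ 0 < δ₀ ∧
      ∀ (l : ℂ → ℝ) (m : ℕ) (c : ℕ → ℂ → ℂ), Measurable l → (∀ z, 0 ≤ l z) → Integrable l →
      WT l C δ₀ → (∀ j, Measurable (c j)) → (∀ z, nm m (fun j => c j z) = 1) →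
      Integrable (fun z => l z * nm m (Am φ u v m z fun j => c j z)) →
      ∫ z, l z * nm m (Am φ u v m z fun j => c j z) ≤ δ₀ → c₀ ≤ ∫ z, l z →
      ∃ j < J, j < m ∧ v j ≠ 0 ∧ θ ≤ ∫ z in {z | θ ≤ ‖c j z‖}, l z

/-- CSA: case A -/
def S_CSA : Prop :=
  ∀ (S : Type) [MeasurableSpace S] (μ : Measure S) [SigmaFinite μ] (φ : S → ℂ)
    (N K : Lp ℂ 2 μ →L[ℂ] Lp ℂ 2 μ), IsMul φ N → ∀ (u v : ℕ → Lp ℂ 2 μ), Repr K u v → Inj u v →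
    ∀ w : ℂ → ℝ, IsW φ u v w → ∀ (a : ℂ) (ρ C c₀ : ℝ) (l : ℕ → ℂ → ℝ) (B δ : ℕ → ℝ), 0 < ρ →
    0 < C → 0 < c₀ → (∀ n, Measurable (l n)) → (∀ n z, 0 ≤ l n z ∧ l n z ≤ B n) →
    (∀ n z, z ∉ ball a ρ → l n z = 0) → (∀ n, c₀ ≤ ∫ z, l n z) → (∀ n, ∫ z, l n z ≤ C) →
    (∀ n, 0 ≤ δ n) → Tendsto δ atTop (𝓝 0) → (∀ n, WT (l n) C (δ n)) →
    Tendsto (fun n => ∫ z, w z * l n z) atTop (𝓝 0) → HasCh (N + K) a (4 * ρ)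

/-- CSB: the vectors in case B -/
def S_CSB : Prop :=
  ∀ (S : Type) [MeasurableSpace S] (μ : Measure S) [SigmaFinite μ] (φ : S → ℂ)
    (N K : Lp ℂ 2 μ →L[ℂ] Lp ℂ 2 μ), IsMul φ N → ∀ (u v : ℕ → Lp ℂ 2 μ), Repr K u v →
    ∀ w : ℂ → ℝ, IsW φ u v w → ∀ (a : ℂ) (τ r : ℝ), 0 < τ → τ < r →
    Cut (fun z => (w z : ℂ)) a τ r → ∀ x : Lp ℂ 2 μ, (∀ᵐ s ∂μ, φ s ∉ ball a (τ / 2) → x s = 0) →
    ∃ (X : ℕ → ℕ → Lp ℂ 2 μ) (Z : ℕ → Lp ℂ 2 μ) (C : ℝ), (∀ n k, ‖X n k‖ ≤ C * r ^ k) ∧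
      (∀ n, ‖Z n‖ ≤ C) ∧
      (∀ k, Tendsto (fun n => (N + K) (X n k) - a • X n k - X n (k + 1)) atTop (𝓝 0)) ∧
      Tendsto (fun n => x - X n 0 - ((N + K) (Z n) - a • Z n)) atTop (𝓝 0)

/-- SRK: near a point of the essential spectrum `T - a` is not surjective modulo the range of a
compact operator -/
def S_SRK : Prop :=
  ∀ (H : Type) [NormedAddCommGroup H] [InnerProductSpace ℂ H] [CompleteSpace H]
    (N K : H →L[ℂ] H) (a : ℂ), IsCompactOperator (⇑K) → Ess N a →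
    ¬ ∀ x : H, ∃ W W' : H, x = (N + K) W - a • W + K W'

/-- PLY: a finite net of a polygon -/
def S_PLY : Prop :=
  ∃ C : ℝ, 0 < C ∧ ∀ (z : ℕ → ℂ) (m : ℕ) (a : ℂ) (r ε : ℝ), 0 < r → 0 < ε → ε ≤ r / 100 →
    ‖z 0 - a‖ ≤ r / 100 → r ≤ ‖z m - a‖ → ∃ Y : Finset ℂ, EC ε Y ∧
      (∀ y ∈ Y, ‖y - a‖ ≤ r / 2) ∧ (∃ p ∈ Y, ∃ q ∈ Y, r / 4 ≤ ‖p - q‖) ∧
      ∀ w, om Y ε w ≤ C * cost (fun y => pk ε (y - w)) z m

/-- LNK: cheap polygons give the densities of case A -/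
def S_LNK : Prop :=
  ∀ (f : ℂ → ℂ) (a : ℂ) (r : ℝ), 0 < r → Measurable f → IntegrableOn f (ball a r) →
    (∀ k : ℕ, ∃ n : ℕ, k ≤ n ∧
      Cheap (pw (fd f a r) (1 / (n + 1))) a (1 / (k + 1)) r (1 / (k + 1))) →
    ∃ (C c₀ : ℝ) (l : ℕ → ℂ → ℝ) (δ : ℕ → ℝ), 0 < C ∧ 0 < c₀ ∧ (∀ n, Den (l n)) ∧
      (∀ n z, z ∉ ball a r → l n z = 0) ∧ (∀ n, ∫ z, l n z = c₀) ∧ (∀ n, 0 ≤ δ n) ∧
      Tendsto δ atTop (𝓝 0) ∧ (∀ n, WT (l n) C (δ n)) ∧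
      Tendsto (fun n => ∫ z, ‖f z‖ * l n z) atTop (𝓝 0)

end Pool.Agent.Q130.TC
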